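import Mathlib

open Set Filter Topology
open scoped ENNReal BigOperators

namespace Pool.Agent.Results.MP_2872ab_an.NoSingular

/-- `l 0, l 1, ...` is a Lambda-sequence: positive, non-decreasing, with divergent sum of
reciprocals. -/
structure IsLambda (l : ℕ → ℝ) : Prop where
  pos : ∀ i, 0 < l i
  mono : Monotone l
  div : ¬ Summable fun i => 1 / l i

/-- A Lambda-sequence is proper if it tends to infinity. -/
def Proper (l : ℕ → ℝ) : Prop := Tendsto l atTop atTop

variable {a b : ℝ}

/-- The absolute increment `|f(I)|` of `f` over the interval `I = [I.1, I.2]`. -/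
def inc (f : Icc a b → ℝ) (I : Icc a b × Icc a b) : ℝ := |f I.2 - f I.1|

/-- `I 0, I 1, ...` is a family of non-overlapping closed subintervals of `[a,b]`
(degenerate intervals are allowed, so that finite families are included). -/
structure Nonoverlap (I : ℕ → Icc a b × Icc a b) : Prop where
  le : ∀ i, (I i).1 ≤ (I i).2
  disj : ∀ i j, i ≠ j → (I i).2 ≤ (I j).1 ∨ (I j).2 ≤ (I i).1

/-- A family for `f`: non-overlapping closed subintervals, indexed so that `|f(I i)|` is
non-increasing. -/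
def IsFamily (f : Icc a b → ℝ) (I : ℕ → Icc a b × Icc a b) : Prop :=
  Nonoverlap I ∧ Antitone fun i => inc f (I i)

/-- `sigma l f I = ∑ i, |f(I i)| / l i`. -/
noncomputable def sigma (l : ℕ → ℝ) (f : Icc a b → ℝ) (I : ℕ → Icc a b × Icc a b) : ℝ≥0∞ :=
  ∑' i, ENNReal.ofReal (inc f (I i) / l i)

/-- The Lambda-variation of `f`. -/
noncomputable def V (l : ℕ → ℝ) (f : Icc a b → ℝ) : ℝ≥0∞ :=
  ⨆ (I : ℕ → Icc a b × Icc a b) (_ : IsFamily f I), sigma l f I

/-- The supremum of `sigma l f I` over families with all lengths at most `d`. -/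
noncomputable def Vd (l : ℕ → ℝ) (f : Icc a b → ℝ) (d : ℝ) : ℝ≥0∞ :=
  ⨆ (I : ℕ → Icc a b × Icc a b) (_ : IsFamily f I ∧ ∀ i, ((I i).2 : ℝ) - (I i).1 ≤ d),
    sigma l f I

/-- The Wiener Lambda-variation of `f`: the limit (= infimum, by monotonicity) of `Vd l f d` as
`d` decreases to `0`. -/
noncomputable def W (l : ℕ → ℝ) (f : Icc a b → ℝ) : ℝ≥0∞ :=
  ⨅ (d : ℝ) (_ : 0 < d), Vd l f d

/-- `f` has bounded Lambda-variation. -/
def BV (l : ℕ → ℝ) (f : Icc a b → ℝ) : Prop := V l f < ∞

/-- `f` is continuous in Lambda-variation: `V` with respect to the sequence with the first `m`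
terms removed tends to `0`. -/
def BVc (l : ℕ → ℝ) (f : Icc a b → ℝ) : Prop :=
  BV l f ∧ Tendsto (fun m => V (fun i => l (i + m)) f) atTop (𝓝 0)

/-- `f` is Lambda-absolutely continuous. -/
def AC (l : ℕ → ℝ) (f : Icc a b → ℝ) : Prop := Continuous f ∧ BVc l f

/-- `f` is Lambda-singular. -/
def Singular (l : ℕ → ℝ) (f : Icc a b → ℝ) : Prop :=
  Continuous f ∧ BV l f ∧ ¬ AC l f ∧ W l f = V l f

/-- `f` has a Lebesgue-type decomposition. -/
def Decomposable (l : ℕ → ℝ) (f : Icc a b → ℝ) : Prop :=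
  ∃ fs fac fj : Icc a b → ℝ, (Singular l fs ∨ ∃ c : ℝ, fs = fun _ => c) ∧ AC l fac ∧
    BVc l fj ∧ f = fs + fac + fj ∧ V l f = V l fs + V l fac + W l fj

/-- The Shao-Sablin index. -/
noncomputable def shaoSablin (l : ℕ → ℝ) : ℝ :=
  limsup (fun n : ℕ => (∑ i ∈ Finset.range (2 * n), 1 / l i) /
    (∑ i ∈ Finset.range n, 1 / l i)) atTop

/-! ### Basic lemmas -/

lemma inc_nonneg (f : Icc a b → ℝ) (I : Icc a b × Icc a b) : 0 ≤ inc f I := abs_nonneg _

lemma inc_self (f : Icc a b → ℝ) (x : Icc a b) : inc f (x, x) = 0 := by simp [inc]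

/-- Rearrangement: an unsorted finite sum is bounded by the supremum over sorted families, and
the family can be taken to consist of the same intervals and of degenerate ones. -/
lemma sum_le_of_nonoverlap (hab : a ≤ b) {l : ℕ → ℝ} (hl : IsLambda l) (f : Icc a b → ℝ)
    {I : ℕ → Icc a b × Icc a b} (hI : Nonoverlap I) (n : ℕ) :
    ∃ J : ℕ → Icc a b × Icc a b, IsFamily f J ∧
      (∀ i, (∃ k, J i = I k) ∨ J i = (⟨a, left_mem_Icc.2 hab⟩, ⟨a, left_mem_Icc.2 hab⟩)) ∧
      ∑ i ∈ Finset.range n, ENNReal.ofReal (inc f (I i) / l i) ≤ sigma l f J := by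
  classical
  set o : Icc a b := ⟨a, left_mem_Icc.2 hab⟩ with ho
  have hol : ∀ x : Icc a b, o ≤ x := fun x => x.2.1
  -- sort the first `n` increments decreasingly
  let x : Fin n → ℝ := fun i => - inc f (I i)
  let π : Equiv.Perm (Fin n) := Tuple.sort x
  have hπ : Monotone (x ∘ π) := Tuple.monotone_sort x
  let J : ℕ → Icc a b × Icc a b := fun i => if h : i < n then I (π ⟨i, h⟩) else (o, o)
  have hJlt : ∀ i (h : i < n), J i = I (π ⟨i, h⟩) := fun i h => by simp [J, h]
  have hJge : ∀ i, ¬ i < n → J i = (o, o) := fun i h => by simp [J, h]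
  refine ⟨J, ⟨⟨?_, ?_⟩, ?_⟩, ?_, ?_⟩
  · intro i
    by_cases h : i < n
    · rw [hJlt i h]; exact hI.le _
    · rw [hJge i h]
  · intro i j hij
    by_cases h : i < n
    · by_cases h' : j < n
      · rw [hJlt i h, hJlt j h']
        apply hI.disj
        intro hc
        have : π ⟨i, h⟩ = π ⟨j, h'⟩ := Fin.ext hc
        have := π.injective this
        exact hij (by simpa using this)
      · rw [hJge j h']
        right; exact hol _
    · rw [hJge i h]
      left; exact hol _
  · intro i j hij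
    by_cases h' : j < n
    · have h : i < n := lt_of_le_of_lt hij h'
      simp only [hJlt i h, hJlt j h']
      have := hπ (show (⟨i, h⟩ : Fin n) ≤ ⟨j, h'⟩ from hij)
      simp only [x, Function.comp] at this
      linarith
    · simp only [hJge j h', inc_self]
      exact inc_nonneg _ _
  · intro i
    by_cases h : i < n
    · left; exact ⟨_, hJlt i h⟩
    · right; exact hJge i h
  · have h1 : ∑ i ∈ Finset.range n, ENNReal.ofReal (inc f (J i) / l i) ≤ sigma l f J :=
      ENNReal.sum_le_tsum _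
    refine le_trans ?_ h1
    rw [← ENNReal.ofReal_sum_of_nonneg (fun i _ => div_nonneg (inc_nonneg _ _) (hl.pos i).le),
      ← ENNReal.ofReal_sum_of_nonneg (fun i _ => div_nonneg (inc_nonneg _ _) (hl.pos i).le)]
    apply ENNReal.ofReal_le_ofReal
    rw [Finset.sum_range, Finset.sum_range]
    have h2 : ∀ i : Fin n, inc f (J i) / l i = inc f (I (π i)) / l i := by
      intro i; rw [hJlt i i.2]
    rw [Finset.sum_congr rfl (fun i _ => h2 i)]
    -- rearrangement inequality
    have hmono : Monovary (fun i : Fin n => inc f (I (π i))) (fun i : Fin n => 1 / l i) := by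
      intro i j hij
      have hji : (j : ℕ) ≤ i := by
        by_contra hcon
        push Not at hcon
        have : l i ≤ l j := hl.mono hcon.le
        have := one_div_le_one_div_of_le (hl.pos i) this
        linarith
      have := hπ (show j ≤ i from hji)
      simp only [x, Function.comp] at this
      linarith
    have key : ∑ i : Fin n, inc f (I i) * (1 / l i) ≤ ∑ i : Fin n, inc f (I (π i)) * (1 / l i) := by
      simpa using hmono.sum_comp_perm_mul_le_sum_mul (σ := π⁻¹)
    calc ∑ i : Fin n, inc f (I i) / l i = ∑ i : Fin n, inc f (I i) * (1 / l i) := by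
          apply Finset.sum_congr rfl; intro i _; ring
      _ ≤ ∑ i : Fin n, inc f (I (π i)) * (1 / l i) := key
      _ = _ := by apply Finset.sum_congr rfl; intro i _; ring

lemma sum_le_Vd (hab : a ≤ b) {l : ℕ → ℝ} (hl : IsLambda l) (f : Icc a b → ℝ)
    {I : ℕ → Icc a b × Icc a b} (hI : Nonoverlap I) {d : ℝ} (hd : 0 ≤ d)
    (hId : ∀ i, ((I i).2 : ℝ) - (I i).1 ≤ d) (n : ℕ) :
    ∑ i ∈ Finset.range n, ENNReal.ofReal (inc f (I i) / l i) ≤ Vd l f d := by
  obtain ⟨J, hJ, hJI, hle⟩ := sum_le_of_nonoverlap hab hl f hI n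
  refine hle.trans ?_
  refine le_iSup₂_of_le J ⟨hJ, ?_⟩ le_rfl
  intro i
  rcases hJI i with ⟨k, hk⟩ | h
  · rw [hk]; exact hId k
  · rw [h]; simpa using hd

lemma sigma_le_Vd (hab : a ≤ b) {l : ℕ → ℝ} (hl : IsLambda l) (f : Icc a b → ℝ)
    {I : ℕ → Icc a b × Icc a b} (hI : Nonoverlap I) {d : ℝ} (hd : 0 ≤ d)
    (hId : ∀ i, ((I i).2 : ℝ) - (I i).1 ≤ d) :
    sigma l f I ≤ Vd l f d := by
  rw [sigma, ENNReal.tsum_eq_iSup_nat]
  exact iSup_le fun n => sum_le_Vd hab hl f hI hd hId n

lemma sum_le_V (hab : a ≤ b) {l : ℕ → ℝ} (hl : IsLambda l) (f : Icc a b → ℝ)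
    {I : ℕ → Icc a b × Icc a b} (hI : Nonoverlap I) (n : ℕ) :
    ∑ i ∈ Finset.range n, ENNReal.ofReal (inc f (I i) / l i) ≤ V l f := by
  obtain ⟨J, hJ, hJI, hle⟩ := sum_le_of_nonoverlap hab hl f hI n
  refine hle.trans ?_
  exact le_iSup₂_of_le J hJ le_rfl

lemma sigma_le_V (hab : a ≤ b) {l : ℕ → ℝ} (hl : IsLambda l) (f : Icc a b → ℝ)
    {I : ℕ → Icc a b × Icc a b} (hI : Nonoverlap I) :
    sigma l f I ≤ V l f := by
  rw [sigma, ENNReal.tsum_eq_iSup_nat]
  exact iSup_le fun n => sum_le_V hab hl f hI n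

lemma Vd_le_V (l : ℕ → ℝ) (f : Icc a b → ℝ) (d : ℝ) : Vd l f d ≤ V l f := by
  refine iSup₂_le fun I hI => ?_
  exact le_iSup₂_of_le I hI.1 le_rfl

lemma W_le_Vd (l : ℕ → ℝ) (f : Icc a b → ℝ) {d : ℝ} (hd : 0 < d) : W l f ≤ Vd l f d :=
  iInf₂_le d hd

lemma W_le_V (l : ℕ → ℝ) (f : Icc a b → ℝ) : W l f ≤ V l f :=
  (W_le_Vd l f one_pos).trans (Vd_le_V l f 1)

lemma Vd_mono (l : ℕ → ℝ) (f : Icc a b → ℝ) {d d' : ℝ} (h : d ≤ d') : Vd l f d ≤ Vd l f d' := by
  refine iSup₂_le fun I hI => ?_
  exact le_iSup₂_of_le I ⟨hI.1, fun i => (hI.2 i).trans h⟩ le_rfl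

lemma IsLambda.shift {l : ℕ → ℝ} (hl : IsLambda l) (m : ℕ) : IsLambda fun i => l (i + m) where
  pos i := hl.pos _
  mono i j hij := hl.mono (by omega)
  div h := hl.div ((summable_nat_add_iff (f := fun i => 1 / l i) m).1 h)

/-- The real form of the bound of unsorted partial sums. -/
lemma real_sum_le (hab : a ≤ b) {l : ℕ → ℝ} (hl : IsLambda l) {f : Icc a b → ℝ} (hf : BV l f)
    {I : ℕ → Icc a b × Icc a b} (hI : Nonoverlap I) (n : ℕ) :
    ∑ i ∈ Finset.range n, inc f (I i) / l i ≤ (V l f).toReal := by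
  have h := sum_le_V hab hl f hI n
  rw [← ENNReal.ofReal_sum_of_nonneg
    (fun i _ => div_nonneg (inc_nonneg _ _) (hl.pos i).le)] at h
  have h2 := (ENNReal.ofReal_le_iff_le_toReal hf.ne).1 h
  exact h2

/-! ### The key estimate -/

/-- `F` avoids the interior of `K`. -/
def Avoid (F K : Icc a b × Icc a b) : Prop := F.2 ≤ K.1 ∨ K.2 ≤ F.1

lemma nonoverlap_insert (hab : a ≤ b) {F : ℕ → Icc a b × Icc a b} (hF : Nonoverlap F)
    {K : Icc a b × Icc a b} (hK : K.1 ≤ K.2) (P : ℕ → Prop) [DecidablePred P]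
    (hP : ∀ i, P i → Avoid (F i) K) :
    Nonoverlap (fun i : ℕ => Nat.casesOn i K (fun i => if P i then F i else
      ((⟨a, left_mem_Icc.2 hab⟩, ⟨a, left_mem_Icc.2 hab⟩) : Icc a b × Icc a b))) := by
  have hol : ∀ x : Icc a b, (⟨a, left_mem_Icc.2 hab⟩ : Icc a b) ≤ x := fun x => x.2.1
  constructor
  · intro i
    rcases i with _ | i
    · exact hK
    · by_cases h : P i
      · simp only [h, if_true]; exact hF.le i
      · simp only [h, if_false]; exact le_rfl
  · intro i j hij
    rcases i with _ | i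
    · rcases j with _ | j
      · exact absurd rfl hij
      · by_cases h : P j
        · simp only [h, if_true]; exact (hP j h).symm
        · simp only [h, if_false]; right; exact hol _
    · rcases j with _ | j
      · by_cases h : P i
        · simp only [h, if_true]; exact hP i h
        · simp only [h, if_false]; left; exact hol _
      · by_cases h : P i
        · by_cases h' : P j
          · simp only [h, h', if_true]
            exact hF.disj i j (by omega)
          · simp only [h', if_false]; right; exact hol _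
        · simp only [h, if_false]; left; exact hol _

/-- If `g` has increments at most `e * l 0` on the intervals of `F`, then inserting `K` costs at
most `e`. -/
lemma insert_bound (hab : a ≤ b) {l : ℕ → ℝ} (hl : IsLambda l) {g : Icc a b → ℝ} (hg : BV l g)
    {F : ℕ → Icc a b × Icc a b} (hF : Nonoverlap F) {K : Icc a b × Icc a b} (hK : K.1 ≤ K.2)
    (P : ℕ → Prop) [DecidablePred P] (hP : ∀ i, P i → Avoid (F i) K) {e : ℝ} (he : 0 ≤ e)
    (hinc : ∀ i, inc g (F i) ≤ e * l 0) (n : ℕ) :
    inc g K / l 0 + ∑ i ∈ Finset.range n, (if P i then inc g (F i) / l i else 0) ≤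
      (V l g).toReal + e := by
  have h1 := real_sum_le hab hl hg (nonoverlap_insert hab hF hK P hP) (n + 1)
  rw [Finset.sum_range_succ'] at h1
  change ∑ i ∈ Finset.range n, inc g (if P i then F i else
      ((⟨a, left_mem_Icc.2 hab⟩, ⟨a, left_mem_Icc.2 hab⟩) : Icc a b × Icc a b)) / l (i + 1) +
      inc g K / l 0 ≤ (V l g).toReal at h1
  have h2 : ∀ i ∈ Finset.range n, (if P i then inc g (F i) / l i else 0) ≤
      inc g (if P i then F i else
      ((⟨a, left_mem_Icc.2 hab⟩, ⟨a, left_mem_Icc.2 hab⟩) : Icc a b × Icc a b)) / l (i + 1) +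
        e * l 0 * (1 / l i - 1 / l (i + 1)) := by
    intro i _
    have h3 : 0 ≤ 1 / l i - 1 / l (i + 1) :=
      sub_nonneg.2 (one_div_le_one_div_of_le (hl.pos i) (hl.mono (Nat.le_succ i)))
    by_cases h : P i
    · simp only [h, if_true]
      have : inc g (F i) / l i = inc g (F i) / l (i + 1) +
          inc g (F i) * (1 / l i - 1 / l (i + 1)) := by ring
      rw [this]
      have := mul_le_mul_of_nonneg_right (hinc i) h3
      linarith
    · simp only [h, if_false, inc_self]
      have := mul_nonneg (mul_nonneg he (hl.pos 0).le) h3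
      simpa using this
  have h4 := Finset.sum_le_sum h2
  rw [Finset.sum_add_distrib, ← Finset.mul_sum, Finset.sum_range_sub'] at h4
  have h5 : e * l 0 * (1 / l 0 - 1 / l n) ≤ e := by
    have h6 : 0 < 1 / l n := one_div_pos.2 (hl.pos n)
    have h7 : e * l 0 * (1 / l 0) = e := by
      have := (hl.pos 0).ne'
      field_simp
    have h8 : 0 ≤ e * l 0 * (1 / l n) := mul_nonneg (mul_nonneg he (hl.pos 0).le) h6.le
    linarith [mul_sub (e * l 0) (1 / l 0) (1 / l n)]
  linarith

/-- At most two of the non-overlapping intervals `I j`, `j ∈ S`, all longer than `F`, meet the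
interior of `F`. -/
lemma card_overlap_le_two {I : ℕ → Icc a b × Icc a b} (hI : Nonoverlap I) (S : Finset ℕ)
    (F : Icc a b × Icc a b) {d : ℝ} (hFd : (F.2 : ℝ) - F.1 ≤ d)
    (hS : ∀ j ∈ S, d < ((I j).2 : ℝ) - (I j).1) :
    (S.filter fun j => ¬ ((F.2 ≤ (I j).1) ∨ ((I j).2 ≤ F.1))).card ≤ 2 := by
  classical
  by_contra hcon
  push Not at hcon
  obtain ⟨i, hi, j, hj, k, hk, hij, hik, hjk⟩ := Finset.two_lt_card.1 hcon
  simp only [Finset.mem_filter, not_or, not_le] at hi hj hk
  have key : ∀ p q r : ℕ, p ∈ S → q ∈ S → r ∈ S → (I p).1 < F.2 → F.1 < (I p).2 →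
      (I r).1 < F.2 → F.1 < (I r).2 → (I p).2 ≤ (I q).1 → (I q).2 ≤ (I r).1 → False := by
    intro p q r _ hq _ _ h2 h3 _ h5 h6
    have := hS q hq
    have e1 : (F.1 : ℝ) < (I q).1 := lt_of_lt_of_le h2 h5
    have e2 : ((I q).2 : ℝ) < F.2 := lt_of_le_of_lt h6 h3
    linarith
  have hlei := hI.le i
  have hlej := hI.le j
  have hlek := hI.le k
  rcases hI.disj i j hij with h1 | h1 <;> rcases hI.disj i k hik with h2 | h2 <;>
    rcases hI.disj j k hjk with h3 | h3
  · exact key i j k hi.1 hj.1 hk.1 hi.2.1 hi.2.2 hk.2.1 hk.2.2 h1 h3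
  · exact key i k j hi.1 hk.1 hj.1 hi.2.1 hi.2.2 hj.2.1 hj.2.2 h2 h3
  · exact key k i j hk.1 hi.1 hj.1 hk.2.1 hk.2.2 hj.2.1 hj.2.2 h2 h1
  · exact key k i j hk.1 hi.1 hj.1 hk.2.1 hk.2.2 hj.2.1 hj.2.2 h2 h1
  · exact key j i k hj.1 hi.1 hk.1 hj.2.1 hj.2.2 hk.2.1 hk.2.2 h1 h2
  · exact key j i k hj.1 hi.1 hk.1 hj.2.1 hj.2.2 hk.2.1 hk.2.2 h1 h2
  · exact key j k i hj.1 hk.1 hi.1 hj.2.1 hj.2.2 hi.2.1 hi.2.2 h3 h2
  · exact key k j i hk.1 hj.1 hi.1 hk.2.1 hk.2.2 hi.2.1 hi.2.2 h3 h1

/-- The key estimate: equality `W = V` forces bounded variation in the sense of Jordan. -/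
lemma sum_inc_le (hab : a ≤ b) {l : ℕ → ℝ} (hl : IsLambda l) {g : Icc a b → ℝ}
    (hgc : Continuous g) (hg : BV l g) (hW : W l g = V l g)
    {I : ℕ → Icc a b × Icc a b} (hI : Nonoverlap I) (N : ℕ) :
    ∑ j ∈ Finset.range N, inc g (I j) ≤ 2 * l 0 * (V l g).toReal := by
  classical
  set v : ℝ := (V l g).toReal with hv
  have hVv : V l g = ENNReal.ofReal v := (ENNReal.ofReal_toReal hg.ne).symm
  have hv0 : 0 ≤ v := ENNReal.toReal_nonneg
  have hl0 : 0 < l 0 := hl.pos 0
  -- each increment is bounded by `l 0 * v`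
  rcases hv0.eq_or_lt with hv00 | hvpos
  · -- if `v = 0` all increments vanish
    have : ∀ j ∈ Finset.range N, inc g (I j) = 0 := by
      intro j _
      have h1 := insert_bound hab hl hg hI (hI.le j) (fun _ => False) (fun _ h => h.elim)
        (e := 0) le_rfl
      have h2 := real_sum_le hab hl hg
        (nonoverlap_insert hab hI (hI.le j) (fun _ => False) (fun _ h => h.elim)) 1
      simp only [Finset.range_one, Finset.sum_singleton] at h2
      rw [← hv, ← hv00] at h2
      have h3 : inc g (I j) ≤ 0 := by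
        have := (div_le_iff₀ hl0).1 h2
        simpa using this
      exact le_antisymm h3 (inc_nonneg _ _)
    rw [Finset.sum_eq_zero this, ← hv00]
    simp
  -- the nondegenerate intervals
  set S : Finset ℕ := (Finset.range N).filter fun j => (I j).1 < (I j).2 with hS
  have hSsum : ∑ j ∈ Finset.range N, inc g (I j) = ∑ j ∈ S, inc g (I j) := by
    rw [hS, Finset.sum_filter]
    apply Finset.sum_congr rfl
    intro j _
    by_cases h : (I j).1 < (I j).2
    · simp [h]
    · have : (I j).1 = (I j).2 := le_antisymm (hI.le j) (not_lt.1 h)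
      simp [inc, this]
  rw [hSsum]
  -- it is enough to have the estimate with an arbitrary error
  have main : ∀ e : ℝ, 0 < e → ∑ j ∈ S, inc g (I j) / l 0 ≤ 2 * S.card * e + 2 * v := by
    intro e he
    -- a length `d` smaller than all lengths and adapted to uniform continuity
    obtain ⟨d1, hd1, hd1'⟩ : ∃ d1 : ℝ, 0 < d1 ∧ ∀ j ∈ S, d1 < ((I j).2 : ℝ) - (I j).1 := by
      by_cases hSe : S.Nonempty
      · obtain ⟨j0, hj0, hmin⟩ := S.exists_min_image (fun j => ((I j).2 : ℝ) - (I j).1) hSe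
        have hpos : 0 < ((I j0).2 : ℝ) - (I j0).1 := by
          have : (I j0).1 < (I j0).2 := (Finset.mem_filter.1 hj0).2
          have : ((I j0).1 : ℝ) < (I j0).2 := this
          linarith
        refine ⟨(((I j0).2 : ℝ) - (I j0).1) / 2, by linarith, fun j hj => ?_⟩
        have := hmin j hj
        linarith
      · refine ⟨1, one_pos, fun j hj => ?_⟩
        exact absurd ⟨j, hj⟩ hSe
    have huc : UniformContinuous g := CompactSpace.uniformContinuous_of_continuous hgc
    obtain ⟨d2, hd2, hd2'⟩ := Metric.uniformContinuous_iff.1 huc (e * l 0) (mul_pos he hl0)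
    set d := min d1 (d2 / 2) with hd
    have hd0 : 0 < d := lt_min hd1 (by linarith)
    -- a fine family that is almost optimal
    have h1 : ENNReal.ofReal (v - e) < Vd l g d := by
      refine lt_of_lt_of_le ?_ (W_le_Vd l g hd0)
      rw [hW, hVv]
      exact (ENNReal.ofReal_lt_ofReal_iff hvpos).2 (by linarith)
    obtain ⟨F, hF⟩ := lt_iSup_iff.1 h1
    obtain ⟨⟨hFfam, hFd⟩, hF⟩ := lt_iSup_iff.1 hF
    rw [sigma, ENNReal.tsum_eq_iSup_nat] at hF
    obtain ⟨n, hn⟩ := lt_iSup_iff.1 hF
    rw [← ENNReal.ofReal_sum_of_nonneg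
      (fun i _ => div_nonneg (inc_nonneg _ _) (hl.pos i).le)] at hn
    have hn' : v - e < ∑ i ∈ Finset.range n, inc g (F i) / l i := by
      by_contra hcon
      push Not at hcon
      exact absurd (ENNReal.ofReal_le_ofReal hcon) (not_le.2 hn)
    have hFinc : ∀ i, inc g (F i) ≤ e * l 0 := by
      intro i
      have hle : (F i).1 ≤ (F i).2 := hFfam.1.le i
      have hle' : ((F i).1 : ℝ) ≤ (F i).2 := hle
      have hdist : dist (F i).2 (F i).1 < d2 := by
        rw [Subtype.dist_eq, Real.dist_eq, abs_of_nonneg (by linarith)]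
        have := hFd i
        have : d ≤ d2 / 2 := min_le_right _ _
        linarith [hFd i]
      have := hd2' hdist
      rw [Real.dist_eq] at this
      exact this.le
    -- the estimate for each `j`
    have hj : ∀ j ∈ S, inc g (I j) / l 0 ≤ 2 * e + ∑ i ∈ Finset.range n,
        (if ¬ ((F i).2 ≤ (I j).1 ∨ (I j).2 ≤ (F i).1) then inc g (F i) / l i else 0) := by
      intro j _
      have h2 := insert_bound hab hl hg hFfam.1 (hI.le j)
        (fun i => (F i).2 ≤ (I j).1 ∨ (I j).2 ≤ (F i).1) (fun i h => h) he.le hFinc n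
      have h3 : ∑ i ∈ Finset.range n, inc g (F i) / l i =
          ∑ i ∈ Finset.range n, (if ((F i).2 ≤ (I j).1 ∨ (I j).2 ≤ (F i).1) then
            inc g (F i) / l i else 0) + ∑ i ∈ Finset.range n,
            (if ¬ ((F i).2 ≤ (I j).1 ∨ (I j).2 ≤ (F i).1) then inc g (F i) / l i else 0) := by
        rw [← Finset.sum_add_distrib]
        apply Finset.sum_congr rfl
        intro i _
        by_cases h : ((F i).2 ≤ (I j).1 ∨ (I j).2 ≤ (F i).1) <;> simp [h]
      linarith
    calc ∑ j ∈ S, inc g (I j) / l 0 ≤ ∑ j ∈ S, (2 * e + ∑ i ∈ Finset.range n,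
        (if ¬ ((F i).2 ≤ (I j).1 ∨ (I j).2 ≤ (F i).1) then inc g (F i) / l i else 0)) :=
          Finset.sum_le_sum hj
      _ = 2 * S.card * e + ∑ i ∈ Finset.range n, ∑ j ∈ S,
        (if ¬ ((F i).2 ≤ (I j).1 ∨ (I j).2 ≤ (F i).1) then inc g (F i) / l i else 0) := by
          rw [Finset.sum_add_distrib, Finset.sum_comm]
          simp only [Finset.sum_const, nsmul_eq_mul]
          ring
      _ ≤ 2 * S.card * e + ∑ i ∈ Finset.range n, 2 * (inc g (F i) / l i) := by
          gcongr with i _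
          rw [← Finset.sum_filter, Finset.sum_const, nsmul_eq_mul]
          have hcard := card_overlap_le_two hI S (F i) (hFd i)
            (fun j hj => lt_of_le_of_lt (min_le_left _ _) (hd1' j hj))
          have : ((S.filter fun j => ¬ (((F i).2 ≤ (I j).1) ∨ ((I j).2 ≤ (F i).1))).card : ℝ)
              ≤ 2 := by exact_mod_cast hcard
          exact mul_le_mul_of_nonneg_right this (div_nonneg (inc_nonneg _ _) (hl.pos i).le)
      _ ≤ 2 * S.card * e + 2 * v := by
          rw [← Finset.mul_sum]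
          have := real_sum_le hab hl hg hFfam.1 n
          linarith
  have main' : ∑ j ∈ S, inc g (I j) / l 0 ≤ 2 * v := by
    apply le_of_forall_pos_le_add
    intro e he
    have hc0 : (0 : ℝ) ≤ S.card := Nat.cast_nonneg _
    have hc : (0 : ℝ) < 2 * S.card + 1 := by linarith
    have := main (e / (2 * S.card + 1)) (div_pos he hc)
    have h2 : 2 * (S.card : ℝ) * (e / (2 * S.card + 1)) ≤ e := by
      rw [mul_div_assoc', div_le_iff₀ hc]
      nlinarith
    linarith
  rw [← Finset.sum_div, div_le_iff₀ hl0] at main'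
  linarith

/-- For a proper Lambda-sequence a continuous function with `W = V < ∞` is Lambda-absolutely
continuous. -/
lemma AC_of_W_eq_V (hab : a ≤ b) {l : ℕ → ℝ} (hl : IsLambda l) (hp : Proper l)
    {g : Icc a b → ℝ} (hgc : Continuous g) (hg : BV l g) (hW : W l g = V l g) : AC l g := by
  refine ⟨hgc, hg, ?_⟩
  set C : ℝ := 2 * l 0 * (V l g).toReal with hC
  have hC0 : 0 ≤ C := mul_nonneg (mul_nonneg zero_le_two (hl.pos 0).le) ENNReal.toReal_nonneg
  have hbound : ∀ m, V (fun i => l (i + m)) g ≤ ENNReal.ofReal (C / l m) := by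
    intro m
    refine iSup₂_le fun I hI => ?_
    rw [sigma, ENNReal.tsum_eq_iSup_nat]
    refine iSup_le fun n => ?_
    rw [← ENNReal.ofReal_sum_of_nonneg
      (fun i _ => div_nonneg (inc_nonneg _ _) (hl.pos _).le)]
    apply ENNReal.ofReal_le_ofReal
    calc ∑ i ∈ Finset.range n, inc g (I i) / l (i + m)
        ≤ ∑ i ∈ Finset.range n, inc g (I i) / l m := by
          apply Finset.sum_le_sum
          intro i _
          exact div_le_div_of_nonneg_left (inc_nonneg _ _) (hl.pos m) (hl.mono (by omega))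
      _ = (∑ i ∈ Finset.range n, inc g (I i)) / l m := by rw [Finset.sum_div]
      _ ≤ C / l m := by
          apply div_le_div_of_nonneg_right _ (hl.pos m).le
          exact sum_inc_le hab hl hgc hg hW hI.1 n
  have hlim : Tendsto (fun m => ENNReal.ofReal (C / l m)) atTop (𝓝 0) := by
    rw [← ENNReal.ofReal_zero]
    apply ENNReal.tendsto_ofReal
    exact Tendsto.div_atTop tendsto_const_nhds hp
  exact tendsto_of_tendsto_of_tendsto_of_le_of_le tendsto_const_nhds hlim
    (fun _ => bot_le) hbound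

/-- There are no Lambda-singular functions. -/
theorem not_singular (hab : a ≤ b) {l : ℕ → ℝ} (hl : IsLambda l) (hp : Proper l)
    (g : Icc a b → ℝ) : ¬ Singular l g := by
  rintro ⟨hgc, hg, hnac, hW⟩
  exact hnac (AC_of_W_eq_V hab hl hp hgc hg hW)

/-! ### Subadditivity and elementary properties -/

lemma inc_add_le (f g : Icc a b → ℝ) (I : Icc a b × Icc a b) :
    inc (f + g) I ≤ inc f I + inc g I := by
  simp only [inc, Pi.add_apply]
  have : f I.2 + g I.2 - (f I.1 + g I.1) = (f I.2 - f I.1) + (g I.2 - g I.1) := by ring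
  rw [this]
  exact abs_add_le _ _

lemma sigma_add_le {l : ℕ → ℝ} (hl : IsLambda l) (f g : Icc a b → ℝ)
    (I : ℕ → Icc a b × Icc a b) : sigma l (f + g) I ≤ sigma l f I + sigma l g I := by
  rw [sigma, sigma, sigma, ← ENNReal.tsum_add]
  apply ENNReal.tsum_le_tsum
  intro i
  rw [← ENNReal.ofReal_add (div_nonneg (inc_nonneg _ _) (hl.pos i).le)
    (div_nonneg (inc_nonneg _ _) (hl.pos i).le)]
  apply ENNReal.ofReal_le_ofReal
  rw [← add_div]
  exact div_le_div_of_nonneg_right (inc_add_le f g _) (hl.pos i).le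

lemma V_add_le (hab : a ≤ b) {l : ℕ → ℝ} (hl : IsLambda l) (f g : Icc a b → ℝ) :
    V l (f + g) ≤ V l f + V l g := by
  refine iSup₂_le fun I hI => ?_
  exact (sigma_add_le hl f g I).trans
    (add_le_add (sigma_le_V hab hl f hI.1) (sigma_le_V hab hl g hI.1))

lemma Vd_add_le (hab : a ≤ b) {l : ℕ → ℝ} (hl : IsLambda l) (f g : Icc a b → ℝ) {d : ℝ}
    (hd : 0 ≤ d) : Vd l (f + g) d ≤ Vd l f d + Vd l g d := by
  refine iSup₂_le fun I hI => ?_
  exact (sigma_add_le hl f g I).trans
    (add_le_add (sigma_le_Vd hab hl f hI.1.1 hd hI.2) (sigma_le_Vd hab hl g hI.1.1 hd hI.2))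

lemma W_add_le (hab : a ≤ b) {l : ℕ → ℝ} (hl : IsLambda l) (f g : Icc a b → ℝ) :
    W l (f + g) ≤ W l f + W l g := by
  have h : ∀ h : Icc a b → ℝ, W l h = ⨅ d : {d : ℝ // 0 < d}, Vd l h d := fun h => by
    rw [W, iInf_subtype']
  rw [h f, h g, ENNReal.iInf_add_iInf]
  · refine le_iInf fun d => ?_
    exact (W_le_Vd l _ d.2).trans (Vd_add_le hab hl f g d.2.le)
  · intro d1 d2
    refine ⟨⟨min d1 d2, lt_min d1.2 d2.2⟩, ?_⟩
    exact add_le_add (Vd_mono l f (min_le_left _ _)) (Vd_mono l g (min_le_right _ _))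

lemma inc_neg (f : Icc a b → ℝ) (I : Icc a b × Icc a b) : inc (-f) I = inc f I := by
  simp only [inc, Pi.neg_apply]
  rw [show -f I.2 - -f I.1 = -(f I.2 - f I.1) by ring, abs_neg]

lemma isFamily_neg (f : Icc a b → ℝ) (I : ℕ → Icc a b × Icc a b) :
    IsFamily (-f) I ↔ IsFamily f I := by
  simp only [IsFamily, inc_neg]

lemma sigma_neg (l : ℕ → ℝ) (f : Icc a b → ℝ) (I : ℕ → Icc a b × Icc a b) :
    sigma l (-f) I = sigma l f I := by
  simp only [sigma, inc_neg]

lemma V_neg (l : ℕ → ℝ) (f : Icc a b → ℝ) : V l (-f) = V l f := by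
  simp only [V, isFamily_neg, sigma_neg]

lemma W_neg (l : ℕ → ℝ) (f : Icc a b → ℝ) : W l (-f) = W l f := by
  simp only [W, Vd, isFamily_neg, sigma_neg]

lemma V_const (l : ℕ → ℝ) (c : ℝ) : V l (fun _ : Icc a b => c) = 0 := by
  apply le_antisymm _ bot_le
  refine iSup₂_le fun I _ => ?_
  simp [sigma, inc]

lemma BVc.add (hab : a ≤ b) {l : ℕ → ℝ} (hl : IsLambda l) {f g : Icc a b → ℝ}
    (hf : BVc l f) (hg : BVc l g) : BVc l (f + g) := by
  refine ⟨(V_add_le hab hl f g).trans_lt (ENNReal.add_lt_top.2 ⟨hf.1, hg.1⟩), ?_⟩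
  have h := hf.2.add hg.2
  rw [add_zero] at h
  exact tendsto_of_tendsto_of_tendsto_of_le_of_le tendsto_const_nhds h (fun _ => bot_le)
    (fun m => V_add_le hab (hl.shift m) f g)

lemma BVc.neg {l : ℕ → ℝ} {f : Icc a b → ℝ} (hf : BVc l f) : BVc l (-f) := by
  refine ⟨?_, ?_⟩
  · rw [BV, V_neg]; exact hf.1
  · simp only [V_neg]; exact hf.2

lemma BVc_const (l : ℕ → ℝ) (c : ℝ) : BVc l (fun _ : Icc a b => c) := by
  refine ⟨?_, ?_⟩
  · rw [BV, V_const]; exact ENNReal.zero_lt_top
  · simp only [V_const]; exact tendsto_const_nhds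

/-- A Lambda-absolutely continuous function has zero Wiener Lambda-variation. -/
lemma W_eq_zero_of_AC (hab : a ≤ b) {l : ℕ → ℝ} (hl : IsLambda l) {f : Icc a b → ℝ}
    (hf : AC l f) : W l f = 0 := by
  refine le_antisymm ?_ bot_le
  apply ENNReal.le_of_forall_pos_le_add
  intro e he _
  rw [zero_add]
  have he' : (0 : ℝ) < e := he
  -- a tail with small variation
  have hev : ∀ᶠ m in atTop, V (fun i => l (i + m)) f < ENNReal.ofReal (e / 2) :=
    hf.2.2.eventually_lt_const (by simpa using he')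
  obtain ⟨m, hm⟩ := hev.exists
  -- uniform continuity
  have huc : UniformContinuous f := CompactSpace.uniformContinuous_of_continuous hf.1
  have hpos : 0 < (e : ℝ) / 2 * (l 0 / (m + 1)) :=
    mul_pos (by linarith) (div_pos (hl.pos 0) (by positivity))
  obtain ⟨d, hd, hd'⟩ := Metric.uniformContinuous_iff.1 huc _ hpos
  refine (W_le_Vd l f (half_pos hd)).trans ?_
  refine iSup₂_le fun I hI => ?_
  rw [sigma, ENNReal.tsum_eq_iSup_nat]
  refine iSup_le fun n => ?_
  have hinc : ∀ i, inc f (I i) ≤ (e : ℝ) / 2 * (l 0 / (m + 1)) := by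
    intro i
    have hle : ((I i).1 : ℝ) ≤ (I i).2 := hI.1.1.le i
    have hdist : dist (I i).2 (I i).1 < d := by
      rw [Subtype.dist_eq, Real.dist_eq, abs_of_nonneg (by linarith)]
      linarith [hI.2 i]
    have := hd' hdist
    rw [Real.dist_eq] at this
    exact this.le
  -- the tail of the family
  have hJ : Nonoverlap (fun i => I (i + m)) :=
    ⟨fun i => hI.1.1.le _, fun i j hij => hI.1.1.disj _ _ (by omega)⟩
  have htail := sum_le_V hab (hl.shift m) f hJ n
  have hsplit : ∑ i ∈ Finset.range n, ENNReal.ofReal (inc f (I i) / l i) ≤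
      ∑ i ∈ Finset.range m, ENNReal.ofReal (inc f (I i) / l i) +
      ∑ i ∈ Finset.range n, ENNReal.ofReal (inc f (I (i + m)) / l (i + m)) := by
    have h1 : ∑ i ∈ Finset.range n, ENNReal.ofReal (inc f (I i) / l i) ≤
        ∑ i ∈ Finset.range (m + n), ENNReal.ofReal (inc f (I i) / l i) :=
      Finset.sum_le_sum_of_subset (Finset.range_mono (by omega))
    refine h1.trans ?_
    rw [Finset.sum_range_add]
    apply le_of_eq
    congr 1
    apply Finset.sum_congr rfl
    intro i _
    rw [add_comm m i]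
  have hhead : ∑ i ∈ Finset.range m, ENNReal.ofReal (inc f (I i) / l i) ≤
      ENNReal.ofReal (e / 2) := by
    rw [← ENNReal.ofReal_sum_of_nonneg
      (fun i _ => div_nonneg (inc_nonneg _ _) (hl.pos i).le)]
    apply ENNReal.ofReal_le_ofReal
    calc ∑ i ∈ Finset.range m, inc f (I i) / l i ≤
        ∑ i ∈ Finset.range m, ((e : ℝ) / 2 * (1 / (m + 1))) := by
          apply Finset.sum_le_sum
          intro i _
          calc inc f (I i) / l i ≤ ((e : ℝ) / 2 * (l 0 / (m + 1))) / l i :=
                div_le_div_of_nonneg_right (hinc i) (hl.pos i).le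
            _ ≤ ((e : ℝ) / 2 * (l 0 / (m + 1))) / l 0 :=
                div_le_div_of_nonneg_left hpos.le (hl.pos 0) (hl.mono (Nat.zero_le i))
            _ = (e : ℝ) / 2 * (1 / (m + 1)) := by
                have := (hl.pos 0).ne'
                field_simp
      _ = (e : ℝ) / 2 * (m / (m + 1)) := by
          rw [Finset.sum_const, Finset.card_range, nsmul_eq_mul]; ring
      _ ≤ (e : ℝ) / 2 * 1 := by
          apply mul_le_mul_of_nonneg_left _ (by linarith)
          rw [div_le_one (by positivity)]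
          linarith
      _ = e / 2 := by ring
  calc ∑ i ∈ Finset.range n, ENNReal.ofReal (inc f (I i) / l i)
      ≤ ENNReal.ofReal (e / 2) + ENNReal.ofReal (e / 2) :=
        hsplit.trans (add_le_add hhead (htail.trans hm.le))
    _ = e := by
        rw [← ENNReal.ofReal_add (by linarith) (by linarith), add_halves]
        simp

/-! ### Affine functions -/

/-- The sum of the lengths of non-overlapping subintervals is at most `b - a`. -/
lemma sum_length_le (hab : a ≤ b) {I : ℕ → Icc a b × Icc a b} (hI : Nonoverlap I) (n : ℕ) :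
    ∑ i ∈ Finset.range n, (((I i).2 : ℝ) - (I i).1) ≤ b - a := by
  have hdisj : Set.PairwiseDisjoint (↑(Finset.range n) : Set ℕ)
      (fun i => Ioo ((I i).1 : ℝ) (I i).2) := by
    intro i _ j _ hij
    rw [Function.onFun, Set.disjoint_left]
    rintro x ⟨hx1, hx2⟩ ⟨hx3, hx4⟩
    rcases hI.disj i j hij with h | h
    · have h' : ((I i).2 : ℝ) ≤ (I j).1 := h
      linarith
    · have h' : ((I j).2 : ℝ) ≤ (I i).1 := h
      linarith
  have h1 := MeasureTheory.measure_biUnion_finset (μ := MeasureTheory.volume) hdisj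
    (fun i _ => measurableSet_Ioo)
  have h2 : MeasureTheory.volume (⋃ i ∈ Finset.range n, Ioo ((I i).1 : ℝ) (I i).2) ≤
      MeasureTheory.volume (Icc a b) := by
    apply MeasureTheory.measure_mono
    intro x hx
    simp only [mem_iUnion] at hx
    obtain ⟨i, _, hx⟩ := hx
    exact ⟨(I i).1.2.1.trans hx.1.le, hx.2.le.trans (I i).2.2.2⟩
  rw [h1, Real.volume_Icc] at h2
  simp only [Real.volume_Ioo] at h2
  rw [← ENNReal.ofReal_sum_of_nonneg
    (fun i _ => sub_nonneg.2 (show ((I i).1 : ℝ) ≤ (I i).2 from hI.le i))] at h2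
  exact (ENNReal.ofReal_le_ofReal_iff (by linarith)).1 h2

/-- The affine function `x ↦ c (x - a)`. -/
def lin (a b c : ℝ) : Icc a b → ℝ := fun x => c * (x - a)

lemma inc_lin {c : ℝ} (hc : 0 ≤ c) {I : Icc a b × Icc a b} (hI : I.1 ≤ I.2) :
    inc (lin a b c) I = c * ((I.2 : ℝ) - I.1) := by
  have h : (I.1 : ℝ) ≤ I.2 := hI
  simp only [inc, lin]
  rw [show c * ((I.2 : ℝ) - a) - c * (I.1 - a) = c * ((I.2 : ℝ) - I.1) by ring,
    abs_of_nonneg (mul_nonneg hc (by linarith))]

lemma V_lin_le (hab : a ≤ b) {l : ℕ → ℝ} (hl : IsLambda l) {c : ℝ} (hc : 0 ≤ c) :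
    V l (lin a b c) ≤ ENNReal.ofReal (c * (b - a) / l 0) := by
  refine iSup₂_le fun I hI => ?_
  rw [sigma, ENNReal.tsum_eq_iSup_nat]
  refine iSup_le fun n => ?_
  rw [← ENNReal.ofReal_sum_of_nonneg
    (fun i _ => div_nonneg (inc_nonneg _ _) (hl.pos _).le)]
  apply ENNReal.ofReal_le_ofReal
  calc ∑ i ∈ Finset.range n, inc (lin a b c) (I i) / l i
      ≤ ∑ i ∈ Finset.range n, c * (((I i).2 : ℝ) - (I i).1) / l 0 := by
        apply Finset.sum_le_sum
        intro i _
        rw [inc_lin hc (hI.1.le i)]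
        exact div_le_div_of_nonneg_left
          (mul_nonneg hc (sub_nonneg.2 (show ((I i).1 : ℝ) ≤ (I i).2 from hI.1.le i)))
          (hl.pos 0) (hl.mono (Nat.zero_le i))
    _ = c * (∑ i ∈ Finset.range n, (((I i).2 : ℝ) - (I i).1)) / l 0 := by
        rw [← Finset.sum_div, Finset.mul_sum]
    _ ≤ c * (b - a) / l 0 := by
        apply div_le_div_of_nonneg_right _ (hl.pos 0).le
        exact mul_le_mul_of_nonneg_left (sum_length_le hab hI.1 n) hc

lemma V_lin (hab : a ≤ b) {l : ℕ → ℝ} (hl : IsLambda l) {c : ℝ} (hc : 0 ≤ c) :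
    V l (lin a b c) = ENNReal.ofReal (c * (b - a) / l 0) := by
  apply le_antisymm (V_lin_le hab hl hc)
  have hI : Nonoverlap (fun i : ℕ => Nat.casesOn i
      ((⟨a, left_mem_Icc.2 hab⟩, ⟨b, right_mem_Icc.2 hab⟩) : Icc a b × Icc a b)
      (fun _ => (⟨a, left_mem_Icc.2 hab⟩, ⟨a, left_mem_Icc.2 hab⟩))) := by
    constructor
    · intro i
      rcases i with _ | i
      · exact hab
      · exact le_rfl
    · intro i j _
      rcases i with _ | i
      · rcases j with _ | j
        · exact absurd rfl ‹_›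
        · right; exact le_rfl
      · left
        rcases j with _ | j
        · exact le_rfl
        · exact le_rfl
  have := sum_le_V hab hl (lin a b c) hI 1
  simp only [Finset.range_one, Finset.sum_singleton] at this
  refine le_trans (le_of_eq ?_) this
  congr 2
  simp [inc, lin, abs_of_nonneg (mul_nonneg hc (sub_nonneg.2 hab))]

lemma AC_lin (hab : a ≤ b) {l : ℕ → ℝ} (hl : IsLambda l) (hp : Proper l) {c : ℝ} (hc : 0 ≤ c) :
    AC l (lin a b c) := by
  refine ⟨?_, ?_, ?_⟩
  · unfold lin; fun_prop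
  · rw [BV, V_lin hab hl hc]; exact ENNReal.ofReal_lt_top
  · have hlim : Tendsto (fun m => ENNReal.ofReal (c * (b - a) / l (0 + m))) atTop (𝓝 0) := by
      rw [← ENNReal.ofReal_zero]
      apply ENNReal.tendsto_ofReal
      simp only [zero_add]
      exact Tendsto.div_atTop tendsto_const_nhds hp
    exact tendsto_of_tendsto_of_tendsto_of_le_of_le tendsto_const_nhds hlim
      (fun _ => bot_le) (fun m => V_lin_le hab (hl.shift m) hc)

/-- A function of bounded Lambda-variation, `l` proper, has a Lebesgue-type decomposition if and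
only if it is continuous in Lambda-variation. -/
theorem decomposable_iff (hab : a < b) {l : ℕ → ℝ} (hl : IsLambda l) (hp : Proper l)
    {f : Icc a b → ℝ} (hf : BV l f) : Decomposable l f ↔ BVc l f := by
  constructor
  · rintro ⟨fs, fac, fj, hs, hac, hj, hsum, -⟩
    rcases hs with hs | ⟨c, hc⟩
    · exact absurd hs (not_singular hab.le hl hp fs)
    · rw [hsum, hc]
      exact ((BVc_const l c).add hab.le hl hac.2).add hab.le hl hj
  · intro hfc
    have hWV : W l f ≤ V l f := W_le_V l f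
    have hWfin : W l f < ∞ := hWV.trans_lt hf
    set r : ℝ := (V l f).toReal - (W l f).toReal with hr
    have hr0 : 0 ≤ r := sub_nonneg.2 (ENNReal.toReal_mono hf.ne hWV)
    have hl0 := hl.pos 0
    have hba : 0 < b - a := sub_pos.2 hab
    set c : ℝ := r * l 0 / (b - a) with hc
    have hc0 : 0 ≤ c := div_nonneg (mul_nonneg hr0 hl0.le) hba.le
    have hVlin : V l (lin a b c) = ENNReal.ofReal r := by
      rw [V_lin hab.le hl hc0]
      congr 1
      rw [hc]
      field_simp
    have hAC := AC_lin hab.le hl hp hc0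
    refine ⟨fun _ => 0, lin a b c, f - lin a b c, Or.inr ⟨0, rfl⟩, hAC, ?_, ?_, ?_⟩
    · rw [sub_eq_add_neg]
      exact hfc.add hab.le hl hAC.2.neg
    · funext x
      simp
    · have hW : W l (f - lin a b c) = W l f := by
        apply le_antisymm
        · calc W l (f - lin a b c) = W l (f + -(lin a b c)) := by rw [sub_eq_add_neg]
            _ ≤ W l f + W l (-(lin a b c)) := W_add_le hab.le hl _ _
            _ = W l f := by rw [W_neg, W_eq_zero_of_AC hab.le hl hAC, add_zero]
        · calc W l f = W l ((f - lin a b c) + lin a b c) := by rw [sub_add_cancel]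
            _ ≤ W l (f - lin a b c) + W l (lin a b c) := W_add_le hab.le hl _ _
            _ = W l (f - lin a b c) := by rw [W_eq_zero_of_AC hab.le hl hAC, add_zero]
      rw [hW, V_const, zero_add, hVlin]
      calc V l f = ENNReal.ofReal (V l f).toReal := (ENNReal.ofReal_toReal hf.ne).symm
        _ = ENNReal.ofReal (r + (W l f).toReal) := by rw [hr]; congr 1; ring
        _ = ENNReal.ofReal r + ENNReal.ofReal (W l f).toReal :=
            ENNReal.ofReal_add hr0 ENNReal.toReal_nonneg
        _ = ENNReal.ofReal r + W l f := by rw [ENNReal.ofReal_toReal hWfin.ne]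

/-! ### The case of Shao-Sablin index two -/

/-- Partial sums of the reciprocals. -/
noncomputable def Lam (l : ℕ → ℝ) (n : ℕ) : ℝ := ∑ i ∈ Finset.range n, 1 / l i

lemma Lam_mono {l : ℕ → ℝ} (hl : IsLambda l) : Monotone (Lam l) := by
  apply monotone_nat_of_le_succ
  intro n
  rw [Lam, Lam, Finset.sum_range_succ]
  have := (one_div_pos.2 (hl.pos n)).le
  linarith

lemma Lam_pos {l : ℕ → ℝ} (hl : IsLambda l) {n : ℕ} (hn : 0 < n) : 0 < Lam l n :=
  Finset.sum_pos (fun i _ => one_div_pos.2 (hl.pos i)) (by simpa using hn.ne')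

lemma Lam_tendsto {l : ℕ → ℝ} (hl : IsLambda l) : Tendsto (Lam l) atTop atTop := by
  have := (not_summable_iff_tendsto_nat_atTop_of_nonneg
    (fun i => (one_div_pos.2 (hl.pos i)).le)).1 hl.div
  exact this

/-- Weighted sums are bounded by the partial sums `Lam`. -/
lemma sum_weight_le {l : ℕ → ℝ} (hl : IsLambda l) (S : Finset ℕ) (y : ℕ → ℝ)
    (hy0 : ∀ i ∈ S, 0 ≤ y i) (hy1 : ∀ i ∈ S, y i ≤ 1) (m : ℕ) (hm : ∑ i ∈ S, y i ≤ m) :
    ∑ i ∈ S, y i / l i ≤ Lam l m := by
  classical
  have hlm := hl.pos m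
  have h1 : ∑ i ∈ S, y i * (1 / l i - 1 / l m) ≤
      ∑ i ∈ Finset.range m, (1 / l i - 1 / l m) := by
    calc ∑ i ∈ S, y i * (1 / l i - 1 / l m)
        ≤ ∑ i ∈ S, (if i < m then (1 / l i - 1 / l m) else 0) := by
          apply Finset.sum_le_sum
          intro i hi
          by_cases h : i < m
          · simp only [h, if_true]
            have h3 : 0 ≤ 1 / l i - 1 / l m :=
              sub_nonneg.2 (one_div_le_one_div_of_le (hl.pos i) (hl.mono h.le))
            have := mul_le_mul_of_nonneg_right (hy1 i hi) h3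
            linarith
          · simp only [h, if_false]
            have h3 : 1 / l i - 1 / l m ≤ 0 :=
              sub_nonpos.2 (one_div_le_one_div_of_le (hl.pos m) (hl.mono (not_lt.1 h)))
            exact mul_nonpos_of_nonneg_of_nonpos (hy0 i hi) h3
      _ = ∑ i ∈ S.filter (fun i => i < m), (1 / l i - 1 / l m) := by
          rw [Finset.sum_filter]
      _ ≤ ∑ i ∈ Finset.range m, (1 / l i - 1 / l m) := by
          apply Finset.sum_le_sum_of_subset_of_nonneg
          · intro i hi
            simpa using (Finset.mem_filter.1 hi).2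
          · intro i hi _
            exact sub_nonneg.2 (one_div_le_one_div_of_le (hl.pos i)
              (hl.mono (Finset.mem_range.1 hi).le))
  have h2 : ∑ i ∈ S, y i / l i = ∑ i ∈ S, y i * (1 / l i - 1 / l m) +
      (∑ i ∈ S, y i) * (1 / l m) := by
    rw [Finset.sum_mul, ← Finset.sum_add_distrib]
    apply Finset.sum_congr rfl
    intro i _
    ring
  have h3 : ∑ i ∈ Finset.range m, (1 / l i - 1 / l m) = Lam l m - m * (1 / l m) := by
    rw [Finset.sum_sub_distrib, Finset.sum_const, Finset.card_range, nsmul_eq_mul, Lam]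
  have h4 : (∑ i ∈ S, y i) * (1 / l m) ≤ m * (1 / l m) :=
    mul_le_mul_of_nonneg_right hm (one_div_pos.2 hlm).le
  linarith

/-- `n` is almost a point of linearity of `Lam`. -/
def Good (l : ℕ → ℝ) (e : ℝ) (n : ℕ) : Prop :=
  0 < n ∧ ∀ m ≤ n, Lam l m ≤ Lam l n * (e + m / n)

lemma good_of_ratio {l : ℕ → ℝ} (hl : IsLambda l) {e : ℝ} {n : ℕ} (hn : 0 < n)
    (he1 : e ≤ 1) (h : (2 - e) * Lam l n ≤ Lam l (2 * n)) : Good l e n := by
  refine ⟨hn, fun m hm => ?_⟩
  have hnr : (0 : ℝ) < n := by exact_mod_cast hn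
  have hmr : (m : ℝ) ≤ n := by exact_mod_cast hm
  -- the average slope on `[n, 2n)` is at most `1 / l i` for `i ≤ n`
  have h1 : Lam l (2 * n) - Lam l n ≤ n * (1 / l n) := by
    have : Lam l (2 * n) = Lam l n + ∑ i ∈ Finset.range n, 1 / l (n + i) := by
      rw [two_mul, Lam, Finset.sum_range_add, Lam]
    rw [this]
    have h2 : ∑ i ∈ Finset.range n, 1 / l (n + i) ≤ ∑ i ∈ Finset.range n, 1 / l n :=
      Finset.sum_le_sum fun i _ =>
        one_div_le_one_div_of_le (hl.pos n) (hl.mono (Nat.le_add_right _ _))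
    rw [Finset.sum_const, Finset.card_range, nsmul_eq_mul] at h2
    linarith
  have h2 : (n - m : ℝ) * (1 / l n) ≤ Lam l n - Lam l m := by
    obtain ⟨k, rfl⟩ := Nat.exists_eq_add_of_le hm
    have : Lam l (m + k) = Lam l m + ∑ i ∈ Finset.range k, 1 / l (m + i) := by
      rw [Lam, Finset.sum_range_add, Lam]
    rw [this]
    have h3 : ∑ i ∈ Finset.range k, 1 / l (m + k) ≤ ∑ i ∈ Finset.range k, 1 / l (m + i) :=
      Finset.sum_le_sum fun i hi =>
        one_div_le_one_div_of_le (hl.pos _)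
          (hl.mono (Nat.add_le_add_left (Finset.mem_range.1 hi).le _))
    rw [Finset.sum_const, Finset.card_range, nsmul_eq_mul] at h3
    push_cast
    have h4 : ((m : ℝ) + k - m) * (1 / l (m + k)) = k * (1 / l (m + k)) := by ring
    rw [h4]
    linarith
  have h3 : (1 - e) * Lam l n ≤ n * (1 / l n) := by linarith
  -- combine
  have h5 : (n - m : ℝ) / n * ((1 - e) * Lam l n) ≤ Lam l n - Lam l m := by
    calc (n - m : ℝ) / n * ((1 - e) * Lam l n) ≤ (n - m : ℝ) / n * (n * (1 / l n)) :=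
          mul_le_mul_of_nonneg_left h3 (div_nonneg (by linarith) hnr.le)
      _ = (n - m : ℝ) * (1 / l n) := by field_simp
      _ ≤ _ := h2
  have hLn : 0 ≤ Lam l n := (Lam_pos hl hn).le
  have h6 : (n - m : ℝ) / n = 1 - m / n := by field_simp
  rw [h6] at h5
  have h7 : 0 ≤ (m : ℝ) / n := by positivity
  by_cases he0 : 0 ≤ e
  · nlinarith [mul_nonneg (mul_nonneg h7 he0) hLn]
  · exfalso
    push Not at he0
    -- `e < 0` is impossible: `Lam (2 n) ≤ 2 Lam n`
    have h8 : n * (1 / l n) ≤ Lam l n := by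
      have h9 : ∑ i ∈ Finset.range n, 1 / l n ≤ ∑ i ∈ Finset.range n, 1 / l i :=
        Finset.sum_le_sum fun i hi =>
          one_div_le_one_div_of_le (hl.pos _) (hl.mono (Finset.mem_range.1 hi).le)
      rw [Finset.sum_const, Finset.card_range, nsmul_eq_mul] at h9
      exact h9
    have := Lam_pos hl hn
    nlinarith

lemma exists_good {l : ℕ → ℝ} (hl : IsLambda l) (hS : shaoSablin l = 2) {e : ℝ} (he : 0 < e)
    (he1 : e ≤ 1) : ∃ᶠ n in atTop, Good l e n := by
  have hco : IsCoboundedUnder (· ≤ ·) atTop (fun n : ℕ =>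
      (∑ i ∈ Finset.range (2 * n), 1 / l i) / (∑ i ∈ Finset.range n, 1 / l i)) := by
    apply IsBoundedUnder.isCoboundedUnder_le
    refine ⟨0, ?_⟩
    simp only [eventually_map]
    filter_upwards with n
    exact div_nonneg (Finset.sum_nonneg fun i _ => (one_div_pos.2 (hl.pos i)).le)
      (Finset.sum_nonneg fun i _ => (one_div_pos.2 (hl.pos i)).le)
  have h1 : 2 - e < limsup (fun n : ℕ => (∑ i ∈ Finset.range (2 * n), 1 / l i) /
    (∑ i ∈ Finset.range n, 1 / l i)) atTop := by
    have : shaoSablin l = limsup (fun n : ℕ => (∑ i ∈ Finset.range (2 * n), 1 / l i) /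
      (∑ i ∈ Finset.range n, 1 / l i)) atTop := rfl
    rw [← this, hS]
    linarith
  have h2 := frequently_lt_of_lt_limsup hco h1
  have h3 := h2.and_eventually (eventually_gt_atTop 0)
  refine h3.mono ?_
  rintro n ⟨hn, hn0⟩
  apply good_of_ratio hl hn0 he1
  have hpos := Lam_pos hl hn0
  exact ((lt_div_iff₀ hpos).1 hn).le

lemma Lam_div_tendsto {l : ℕ → ℝ} (hp : Proper l) :
    Tendsto (fun n : ℕ => Lam l n / n) atTop (𝓝 0) := by
  have h1 : Tendsto (fun i => 1 / l i) atTop (𝓝 0) := tendsto_const_nhds.div_atTop hp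
  have h2 := h1.cesaro
  refine h2.congr fun n => ?_
  rw [Lam, div_eq_inv_mul]

/-- The next index of the construction. -/
lemma exists_next {l : ℕ → ℝ} (hl : IsLambda l) (hp : Proper l) (hS : shaoSablin l = 2)
    {e : ℝ} (he : 0 < e) (he1 : e ≤ 1) (n0 : ℕ) :
    ∃ n : ℕ, Good l e n ∧ 2 * n0 ≤ n ∧ 16 * Lam l n0 ≤ Lam l n ∧
      16 * (n0 / Lam l n0) ≤ n / Lam l n := by
  have h1 := exists_good hl hS he he1
  have h2 : ∀ᶠ n in atTop, 16 * Lam l n0 ≤ Lam l n := (Lam_tendsto hl).eventually_ge_atTop _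
  have h3 : ∀ᶠ n : ℕ in atTop, Lam l n / n < 1 / (16 * (n0 / Lam l n0) + 1) := by
    apply (Lam_div_tendsto hp).eventually_lt_const
    have : 0 ≤ (n0 : ℝ) / Lam l n0 := by
      rcases Nat.eq_zero_or_pos n0 with h | h
      · simp [h]
      · exact div_nonneg (Nat.cast_nonneg _) (Lam_pos hl h).le
    positivity
  obtain ⟨n, hn, ⟨hn2, hn3⟩, hn4⟩ := (h1.and_eventually
    ((h2.and h3).and (eventually_ge_atTop (2 * n0)))).exists
  refine ⟨n, hn, hn4, hn2, ?_⟩
  have hnpos : (0 : ℝ) < n := by exact_mod_cast hn.1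
  have hLpos := Lam_pos hl hn.1
  have hq : 0 ≤ (n0 : ℝ) / Lam l n0 := by
    rcases Nat.eq_zero_or_pos n0 with h | h
    · simp [h]
    · exact div_nonneg (Nat.cast_nonneg _) (Lam_pos hl h).le
  have h5 : (16 * (n0 / Lam l n0) + 1) * (Lam l n / n) < 1 := by
    rw [lt_div_iff₀ (by positivity)] at hn3
    linarith
  have h6 : (16 * (n0 / Lam l n0) + 1) * Lam l n < n := by
    rw [mul_div_assoc', div_lt_one hnpos] at h5
    exact h5
  rw [le_div_iff₀ hLpos]
  nlinarith

/-- The sequence of indices used in the construction. -/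
lemma exists_seq {l : ℕ → ℝ} (hl : IsLambda l) (hp : Proper l) (hS : shaoSablin l = 2) :
    ∃ n : ℕ → ℕ, n 0 = 1 ∧ (∀ k, Good l ((1 / 2) ^ k) (n k)) ∧ (∀ k, 2 * n k ≤ n (k + 1)) ∧
      (∀ k, 16 * Lam l (n k) ≤ Lam l (n (k + 1))) ∧
      (∀ k, 16 * (n k / Lam l (n k)) ≤ n (k + 1) / Lam l (n (k + 1))) := by
  have hnext : ∀ (k n0 : ℕ), ∃ n : ℕ, Good l ((1 / 2) ^ (k + 1)) n ∧ 2 * n0 ≤ n ∧
      16 * Lam l n0 ≤ Lam l n ∧ 16 * (n0 / Lam l n0) ≤ n / Lam l n := fun k n0 =>
    exists_next hl hp hS (by positivity) (pow_le_one₀ (by norm_num) (by norm_num)) n0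
  choose next h1 h2 h3 h4 using hnext
  let n : ℕ → ℕ := fun k => Nat.rec 1 (fun k n0 => next k n0) k
  have hn0 : n 0 = 1 := rfl
  have hns : ∀ k, n (k + 1) = next k (n k) := fun k => rfl
  refine ⟨n, hn0, ?_, ?_, ?_, ?_⟩
  · intro k
    rcases k with _ | k
    · rw [hn0]
      refine ⟨one_pos, fun m hm => ?_⟩
      have hL1 := (Lam_pos hl one_pos).le
      have hm' := Lam_mono hl hm
      have : 0 ≤ Lam l 1 * (m : ℝ) := mul_nonneg hL1 (Nat.cast_nonneg _)
      simp only [pow_zero, Nat.cast_one, div_one]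
      nlinarith
    · rw [hns]; exact h1 k (n k)
  · intro k; rw [hns]; exact h2 k (n k)
  · intro k; rw [hns]; exact h3 k (n k)
  · intro k; rw [hns]; exact h4 k (n k)

/-- The distance to the nearest integer. -/
noncomputable def phi (x : ℝ) : ℝ := |x - round x|

lemma phi_nonneg (x : ℝ) : 0 ≤ phi x := abs_nonneg _

lemma phi_le (x : ℝ) : phi x ≤ 1 / 2 := abs_sub_round x

lemma phi_lipschitz (x y : ℝ) : |phi x - phi y| ≤ |x - y| := by
  have h : ∀ z : ℝ, phi z = ‖(z : UnitAddCircle)‖ := fun z => (UnitAddCircle.norm_eq).symm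
  rw [h, h]
  calc |‖(x : UnitAddCircle)‖ - ‖(y : UnitAddCircle)‖| ≤ ‖(x : UnitAddCircle) - y‖ :=
        abs_norm_sub_norm_le _ _
    _ = ‖((x - y : ℝ) : UnitAddCircle)‖ := by rw [AddCircle.coe_sub]
    _ ≤ |x - y| := by
        rw [← Real.norm_eq_abs]
        exact QuotientAddGroup.norm_mk_le_norm

lemma phi_sub_le_half (x y : ℝ) : |phi x - phi y| ≤ 1 / 2 := by
  rw [abs_le]
  constructor <;> linarith [phi_nonneg x, phi_nonneg y, phi_le x, phi_le y]

lemma phi_half (i : ℕ) : |phi (((i : ℝ) + 1) / 2) - phi ((i : ℝ) / 2)| = 1 / 2 := by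
  have hint : ∀ q : ℕ, phi (q : ℝ) = 0 := by
    intro q
    rw [phi, round_natCast]
    simp
  have hhalf : ∀ q : ℕ, phi ((q : ℝ) + 1 / 2) = 1 / 2 := by
    intro q
    rw [phi, abs_sub_round_eq_min, Int.fract_natCast_add]
    norm_num
  rcases Nat.even_or_odd' i with ⟨q, hq | hq⟩
  · rw [hq]
    push_cast
    rw [show (2 * (q : ℝ) + 1) / 2 = q + 1 / 2 by ring, show 2 * (q : ℝ) / 2 = q by ring,
      hint, hhalf]
    norm_num
  · rw [hq]
    push_cast
    rw [show (2 * (q : ℝ) + 1 + 1) / 2 = ((q + 1 : ℕ) : ℝ) by push_cast; ring,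
      show (2 * (q : ℝ) + 1) / 2 = q + 1 / 2 by ring, hint, hhalf]
    norm_num

/-- The data of the construction: `n k` are the frequencies. -/
structure Freq (l : ℕ → ℝ) (n : ℕ → ℕ) : Prop where
  zero : n 0 = 1
  good : ∀ k, Good l ((1 / 2) ^ k) (n k)
  two : ∀ k, 2 * n k ≤ n (k + 1)
  hA : ∀ k, 16 * Lam l (n k) ≤ Lam l (n (k + 1))
  hB : ∀ k, 16 * (n k / Lam l (n k)) ≤ n (k + 1) / Lam l (n (k + 1))

/-- The amplitudes. -/
noncomputable def amp (l : ℕ → ℝ) (n : ℕ → ℕ) (k : ℕ) : ℝ := 1 / Lam l (n k)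

/-- The function `∑ A_k φ(n_k x)`. -/
noncomputable def bigF (l : ℕ → ℝ) (n : ℕ → ℕ) (x : ℝ) : ℝ := ∑' k, amp l n k * phi (n k * x)

section construction

variable {l : ℕ → ℝ} {n : ℕ → ℕ}

lemma Freq.npos (h : Freq l n) (k : ℕ) : 0 < n k := (h.good k).1

lemma Freq.nposR (h : Freq l n) (k : ℕ) : (0 : ℝ) < n k := by exact_mod_cast h.npos k

lemma Freq.pow_le (h : Freq l n) (k : ℕ) : (2 : ℝ) ^ k ≤ n k := by
  have : 2 ^ k ≤ n k := by
    induction k with
    | zero => rw [h.zero]; norm_num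
    | succ k ih =>
      have := h.two k
      rw [pow_succ]
      omega
  exact_mod_cast this

lemma Freq.amp_pos (h : Freq l n) (hl : IsLambda l) (k : ℕ) : 0 < amp l n k :=
  one_div_pos.2 (Lam_pos hl (h.npos k))

lemma Freq.amp_mul (h : Freq l n) (hl : IsLambda l) (k : ℕ) : amp l n k * Lam l (n k) = 1 := by
  rw [amp, one_div, inv_mul_cancel₀ (Lam_pos hl (h.npos k)).ne']

lemma Freq.amp_succ (h : Freq l n) (hl : IsLambda l) (k : ℕ) :
    amp l n (k + 1) ≤ amp l n k / 16 := by
  rw [amp, amp, div_div, mul_comm]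
  exact one_div_le_one_div_of_le (by have := Lam_pos hl (h.npos k); positivity) (h.hA k)

lemma Freq.amp_add (h : Freq l n) (hl : IsLambda l) (k j : ℕ) :
    amp l n (j + k) ≤ amp l n k * (1 / 16) ^ j := by
  induction j with
  | zero => simp
  | succ j ih =>
    have h1 := h.amp_succ hl (j + k)
    rw [show j + 1 + k = j + k + 1 by ring]
    rw [pow_succ]
    linarith

lemma Freq.summable_amp (h : Freq l n) (hl : IsLambda l) (k : ℕ) :
    Summable fun j => amp l n (j + k) := by
  refine Summable.of_nonneg_of_le (fun j => (h.amp_pos hl _).le) (fun j => h.amp_add hl k j) ?_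
  exact (summable_geometric_of_lt_one (by norm_num) (by norm_num)).mul_left _

lemma Freq.tsum_amp_le (h : Freq l n) (hl : IsLambda l) (k : ℕ) :
    ∑' j, amp l n (j + k) ≤ 16 / 15 * amp l n k := by
  have h1 : ∑' j : ℕ, amp l n k * (1 / 16 : ℝ) ^ j = 16 / 15 * amp l n k := by
    rw [tsum_mul_left, tsum_geometric_of_lt_one (by norm_num) (by norm_num)]
    ring
  rw [← h1]
  exact (h.summable_amp hl k).tsum_le_tsum (fun j => h.amp_add hl k j)
    ((summable_geometric_of_lt_one (by norm_num) (by norm_num)).mul_left _)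

lemma Freq.sumB (h : Freq l n) (hl : IsLambda l) (k : ℕ) :
    ∑ j ∈ Finset.range k, amp l n j * n j ≤ amp l n k * n k / 15 := by
  have hB : ∀ k, 16 * (amp l n k * n k) ≤ amp l n (k + 1) * n (k + 1) := by
    intro k
    have := h.hB k
    rw [amp, amp]
    have e1 : 1 / Lam l (n k) * (n k : ℝ) = n k / Lam l (n k) := by ring
    have e2 : 1 / Lam l (n (k + 1)) * (n (k + 1) : ℝ) = n (k + 1) / Lam l (n (k + 1)) := by ring
    rw [e1, e2]
    exact this
  induction k with
  | zero =>
    simp only [Finset.range_zero, Finset.sum_empty]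
    exact div_nonneg (mul_nonneg (h.amp_pos hl 0).le (Nat.cast_nonneg _)) (by norm_num)
  | succ k ih =>
    rw [Finset.sum_range_succ]
    have := hB k
    linarith

lemma Freq.summable_term (h : Freq l n) (hl : IsLambda l) (x : ℝ) :
    Summable fun k => amp l n k * phi (n k * x) := by
  refine Summable.of_nonneg_of_le (fun k => mul_nonneg (h.amp_pos hl k).le (phi_nonneg _))
    (fun k => ?_) (h.summable_amp hl 0)
  have := mul_le_mul_of_nonneg_left (phi_le (n k * x)) (h.amp_pos hl k).le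
  have h2 := h.amp_pos hl k
  simp only [add_zero]
  linarith

lemma Freq.continuous_bigF (h : Freq l n) (hl : IsLambda l) : Continuous (bigF l n) := by
  have hphi : Continuous phi := by
    have : LipschitzWith 1 phi := by
      apply LipschitzWith.of_dist_le_mul
      intro x y
      rw [Real.dist_eq, Real.dist_eq, NNReal.coe_one, one_mul]
      exact phi_lipschitz x y
    exact this.continuous
  refine continuous_tsum (u := fun k => amp l n (k + 0)) (fun k => ?_) (h.summable_amp hl 0) ?_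
  · exact continuous_const.mul (hphi.comp (continuous_const.mul continuous_id))
  · intro k x
    rw [Real.norm_eq_abs, abs_of_nonneg (mul_nonneg (h.amp_pos hl k).le (phi_nonneg _))]
    have := mul_le_mul_of_nonneg_left (phi_le (n k * x)) (h.amp_pos hl k).le
    have h2 := h.amp_pos hl k
    simp only [add_zero]
    linarith

/-- Splitting the increment of `bigF`. -/
lemma Freq.bigF_sub (h : Freq l n) (hl : IsLambda l) (x y : ℝ) (k : ℕ) :
    bigF l n y - bigF l n x =
      ∑ j ∈ Finset.range k, amp l n j * (phi (n j * y) - phi (n j * x)) +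
      ∑' j, amp l n (j + k) * (phi (n (j + k) * y) - phi (n (j + k) * x)) := by
  have hs : Summable fun k => amp l n k * (phi (n k * y) - phi (n k * x)) := by
    have := (h.summable_term hl y).sub (h.summable_term hl x)
    refine this.congr fun k => ?_
    ring
  rw [hs.sum_add_tsum_nat_add k, bigF, bigF, ← (h.summable_term hl y).tsum_sub
    (h.summable_term hl x)]
  apply tsum_congr
  intro k
  ring

lemma Freq.head_le (h : Freq l n) (hl : IsLambda l) (x y : ℝ) (k : ℕ) :
    |∑ j ∈ Finset.range k, amp l n j * (phi (n j * y) - phi (n j * x))| ≤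
      (∑ j ∈ Finset.range k, amp l n j * n j) * |y - x| := by
  refine (Finset.abs_sum_le_sum_abs _ _).trans ?_
  rw [Finset.sum_mul]
  apply Finset.sum_le_sum
  intro j _
  rw [abs_mul, abs_of_pos (h.amp_pos hl j)]
  have h1 := phi_lipschitz (n j * y) (n j * x)
  rw [← mul_sub, abs_mul, Nat.abs_cast] at h1
  rw [mul_assoc]
  exact mul_le_mul_of_nonneg_left h1 (h.amp_pos hl j).le

lemma Freq.tail_le (h : Freq l n) (hl : IsLambda l) (x y : ℝ) (k : ℕ) :
    |∑' j, amp l n (j + k) * (phi (n (j + k) * y) - phi (n (j + k) * x))| ≤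
      8 / 15 * amp l n k := by
  have hs1 : Summable fun j => amp l n (j + k) * (1 / 2) := (h.summable_amp hl k).mul_right _
  have hle : ∀ j, ‖amp l n (j + k) * (phi (n (j + k) * y) - phi (n (j + k) * x))‖ ≤
      amp l n (j + k) * (1 / 2) := by
    intro j
    rw [Real.norm_eq_abs, abs_mul, abs_of_pos (h.amp_pos hl _)]
    exact mul_le_mul_of_nonneg_left (phi_sub_le_half _ _) (h.amp_pos hl _).le
  have h1 := tsum_of_norm_bounded hs1.hasSum hle
  rw [Real.norm_eq_abs, tsum_mul_right] at h1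
  have h2 := h.tsum_amp_le hl k
  linarith

/-- The modulus of continuity of `bigF`. -/
lemma Freq.modulus (h : Freq l n) (hl : IsLambda l) (x y : ℝ) (k : ℕ) :
    |bigF l n y - bigF l n x| ≤ 2 * (amp l n k * n k) * |y - x| + amp l n (k + 1) := by
  rw [h.bigF_sub hl x y (k + 1)]
  refine (abs_add_le _ _).trans ?_
  have h1 := h.head_le hl x y (k + 1)
  have h2 := h.tail_le hl x y (k + 1)
  have h3 := h.sumB hl k
  rw [Finset.sum_range_succ (fun j => amp l n j * (n j : ℝ))] at h1
  have h4 := h.amp_pos hl (k + 1)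
  have h5 : 0 ≤ amp l n k * n k := mul_nonneg (h.amp_pos hl k).le (Nat.cast_nonneg _)
  have h6 : (∑ x ∈ Finset.range k, amp l n x * ↑(n x) + amp l n k * ↑(n k)) * |y - x| ≤
      2 * (amp l n k * n k) * |y - x| := by
    apply mul_le_mul_of_nonneg_right _ (abs_nonneg _)
    linarith
  linarith

/-- The oscillation of `bigF` at frequency `n k`. -/
lemma Freq.osc (h : Freq l n) (hl : IsLambda l) (k i : ℕ) :
    amp l n k / 4 ≤ |bigF l n (((i : ℝ) + 1) / (2 * n k)) - bigF l n ((i : ℝ) / (2 * n k))| := by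
  set x : ℝ := (i : ℝ) / (2 * n k) with hx
  set y : ℝ := ((i : ℝ) + 1) / (2 * n k) with hy
  have hn := h.nposR k
  have hyx : |y - x| = 1 / (2 * n k) := by
    rw [hx, hy, ← sub_div, abs_of_nonneg] <;> ring_nf
    positivity
  rw [h.bigF_sub hl x y k]
  have hs : Summable fun j => amp l n (j + k) * (phi (n (j + k) * y) - phi (n (j + k) * x)) := by
    have hs1 : Summable fun j => amp l n (j + k) * (1 / 2) := (h.summable_amp hl k).mul_right _
    refine Summable.of_norm_bounded hs1 ?_
    intro j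
    rw [Real.norm_eq_abs, abs_mul, abs_of_pos (h.amp_pos hl _)]
    exact mul_le_mul_of_nonneg_left (phi_sub_le_half _ _) (h.amp_pos hl _).le
  rw [hs.tsum_eq_zero_add]
  simp only [zero_add]
  have e1 : (n k : ℝ) * y = ((i : ℝ) + 1) / 2 := by rw [hy]; field_simp
  have e2 : (n k : ℝ) * x = (i : ℝ) / 2 := by rw [hx]; field_simp
  rw [e1, e2]
  have h1 := h.head_le hl x y k
  have h2 := h.tail_le hl x y (k + 1)
  have h3 := h.sumB hl k
  have h4 : |amp l n k * (phi (((i : ℝ) + 1) / 2) - phi ((i : ℝ) / 2))| = amp l n k / 2 := by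
    rw [abs_mul, phi_half, abs_of_pos (h.amp_pos hl k)]; ring
  have h5 := h.amp_succ hl k
  have h6 := h.amp_pos hl k
  have h7 : (∑ j ∈ Finset.range k, amp l n j * n j) * |y - x| ≤ amp l n k / 30 := by
    rw [hyx]
    calc (∑ j ∈ Finset.range k, amp l n j * n j) * (1 / (2 * n k))
        ≤ (amp l n k * n k / 15) * (1 / (2 * n k)) :=
          mul_le_mul_of_nonneg_right h3 (by positivity)
      _ = amp l n k / 30 := by field_simp; ring
  have e3 : ∀ j, j + 1 + k = j + (k + 1) := fun j => by ring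
  simp only [e3]
  set P := ∑ j ∈ Finset.range k, amp l n j * (phi (n j * y) - phi (n j * x)) with hP
  set Q := amp l n k * (phi (((i : ℝ) + 1) / 2) - phi ((i : ℝ) / 2)) with hQ
  set R := ∑' j, amp l n (j + (k + 1)) *
    (phi (n (j + (k + 1)) * y) - phi (n (j + (k + 1)) * x)) with hR
  have h8 : |Q| ≤ |P + (Q + R)| + |P| + |R| := by
    calc |Q| = |(P + (Q + R)) + (-P) + (-R)| := by congr 1; ring
      _ ≤ |(P + (Q + R)) + (-P)| + |-R| := abs_add_le _ _
      _ ≤ |P + (Q + R)| + |-P| + |-R| := by gcongr; exact abs_add_le _ _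
      _ = _ := by rw [abs_neg, abs_neg]
  linarith

/-- The estimate for one frequency range. -/
lemma Freq.range_le (h : Freq l n) (hl : IsLambda l) (S : Finset ℕ) (L x : ℕ → ℝ) (k : ℕ)
    (hL0 : ∀ i ∈ S, 0 ≤ L i) (hL1 : ∀ i ∈ S, n k * L i ≤ 1)
    (hL2 : ∀ i ∈ S, 1 ≤ n (k + 1) * L i) (hsum : ∑ i ∈ S, L i ≤ 1)
    (hx : ∀ i ∈ S, x i ≤ 2 * (amp l n k * n k) * L i + amp l n (k + 1)) :
    ∑ i ∈ S, x i / l i ≤ 5 * (1 / 2) ^ k + 3 * ∑ i ∈ S, L i := by
  classical
  set T := ∑ i ∈ S, L i with hT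
  have hT0 : 0 ≤ T := Finset.sum_nonneg hL0
  have hnk := h.nposR k
  have hnk1 := h.nposR (k + 1)
  -- first part
  have hb : amp l n k * ∑ i ∈ S, (n k * L i) / l i ≤ (1 / 2) ^ k + T + 1 / n k := by
    have h1 : ∑ i ∈ S, (n k * L i) / l i ≤ Lam l ⌈n k * T⌉₊ := by
      apply sum_weight_le hl S (fun i => n k * L i)
        (fun i hi => mul_nonneg hnk.le (hL0 i hi)) hL1
      rw [← Finset.mul_sum]
      exact Nat.le_ceil _
    have h2 : ⌈n k * T⌉₊ ≤ n k := by
      apply Nat.ceil_le.2
      nlinarith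
    have h3 := (h.good k).2 _ h2
    have h4 : amp l n k * Lam l ⌈n k * T⌉₊ ≤ (1 / 2) ^ k + (⌈n k * T⌉₊ : ℝ) / n k := by
      calc amp l n k * Lam l ⌈n k * T⌉₊
          ≤ amp l n k * (Lam l (n k) * ((1 / 2) ^ k + (⌈n k * T⌉₊ : ℝ) / n k)) :=
            mul_le_mul_of_nonneg_left h3 (h.amp_pos hl k).le
        _ = (amp l n k * Lam l (n k)) * ((1 / 2) ^ k + (⌈n k * T⌉₊ : ℝ) / n k) := by ring
        _ = _ := by rw [h.amp_mul hl k, one_mul]
    have h5 : (⌈n k * T⌉₊ : ℝ) / n k ≤ T + 1 / n k := by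
      rw [div_le_iff₀ hnk]
      have h6 := (Nat.ceil_lt_add_one (mul_nonneg hnk.le hT0)).le
      have h7 : (T + 1 / n k) * n k = n k * T + 1 := by field_simp
      rw [h7]; exact h6
    have h6 := mul_le_mul_of_nonneg_left h1 (h.amp_pos hl k).le
    linarith
  -- second part
  have ha : amp l n (k + 1) * ∑ i ∈ S, 1 / l i ≤ (1 / 2) ^ (k + 1) + T := by
    have hcard : (S.card : ℝ) ≤ n (k + 1) * T := by
      rw [hT, Finset.mul_sum, Finset.card_eq_sum_ones]
      push_cast
      exact Finset.sum_le_sum hL2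
    have h1 : ∑ i ∈ S, 1 / l i ≤ Lam l S.card := by
      apply sum_weight_le hl S (fun _ => 1) (fun _ _ => zero_le_one) (fun _ _ => le_rfl)
      simp
    have h2 : S.card ≤ n (k + 1) := by
      have : (S.card : ℝ) ≤ n (k + 1) := by nlinarith
      exact_mod_cast this
    have h3 := (h.good (k + 1)).2 _ h2
    have h4 : amp l n (k + 1) * Lam l S.card ≤ (1 / 2) ^ (k + 1) + (S.card : ℝ) / n (k + 1) := by
      calc amp l n (k + 1) * Lam l S.card
          ≤ amp l n (k + 1) * (Lam l (n (k + 1)) *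
              ((1 / 2) ^ (k + 1) + (S.card : ℝ) / n (k + 1))) :=
            mul_le_mul_of_nonneg_left h3 (h.amp_pos hl _).le
        _ = (amp l n (k + 1) * Lam l (n (k + 1))) *
              ((1 / 2) ^ (k + 1) + (S.card : ℝ) / n (k + 1)) := by ring
        _ = _ := by rw [h.amp_mul hl (k + 1), one_mul]
    have h5 : (S.card : ℝ) / n (k + 1) ≤ T := by
      rw [div_le_iff₀ hnk1]; linarith
    have h6 := mul_le_mul_of_nonneg_left h1 (h.amp_pos hl (k + 1)).le
    linarith
  have hsplit : ∑ i ∈ S, x i / l i ≤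
      2 * (amp l n k * ∑ i ∈ S, (n k * L i) / l i) + amp l n (k + 1) * ∑ i ∈ S, 1 / l i := by
    rw [Finset.mul_sum, Finset.mul_sum, Finset.mul_sum, ← Finset.sum_add_distrib]
    apply Finset.sum_le_sum
    intro i hi
    calc x i / l i ≤ (2 * (amp l n k * n k) * L i + amp l n (k + 1)) / l i :=
          div_le_div_of_nonneg_right (hx i hi) (hl.pos i).le
      _ = _ := by ring
  have hn2 : 1 / (n k : ℝ) ≤ (1 / 2) ^ k := by
    rw [one_div_pow]
    exact one_div_le_one_div_of_le (by positivity) (h.pow_le k)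
  have hpow : ((1 : ℝ) / 2) ^ (k + 1) ≤ (1 / 2) ^ k := by
    rw [pow_succ]
    have : (0 : ℝ) < (1 / 2) ^ k := by positivity
    linarith
  linarith

/-- The bound of the Lambda-variation of the constructed function. -/
lemma Freq.total_le (h : Freq l n) (hl : IsLambda l) (N : ℕ) (L x : ℕ → ℝ)
    (hL0 : ∀ i, 0 ≤ L i) (hsum : ∑ i ∈ Finset.range N, L i ≤ 1)
    (hx0 : ∀ i, L i = 0 → x i = 0)
    (hx : ∀ i k, x i ≤ 2 * (amp l n k * n k) * L i + amp l n (k + 1)) :
    ∑ i ∈ Finset.range N, x i / l i ≤ 13 := by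
  classical
  set S := (Finset.range N).filter fun i => 0 < L i with hS
  have hSsum : ∑ i ∈ Finset.range N, x i / l i = ∑ i ∈ S, x i / l i := by
    rw [hS, Finset.sum_filter]
    apply Finset.sum_congr rfl
    intro i _
    by_cases hi : 0 < L i
    · simp [hi]
    · have : L i = 0 := le_antisymm (not_lt.1 hi) (hL0 i)
      simp [hx0 i this, this]
  rw [hSsum]
  have hL1 : ∀ i ∈ S, L i ≤ 1 := by
    intro i hi
    have := Finset.single_le_sum (f := L) (fun j _ => hL0 j) (Finset.mem_filter.1 hi).1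
    linarith
  have hSL : ∑ i ∈ S, L i ≤ 1 := by
    refine le_trans ?_ hsum
    exact Finset.sum_le_sum_of_subset_of_nonneg (Finset.filter_subset _ _) (fun i _ _ => hL0 i)
  -- the frequency range of each interval
  have hex : ∀ i ∈ S, ∃ k, n k * L i ≤ 1 ∧ 1 ≤ n (k + 1) * L i := by
    intro i hi
    have hLi : 0 < L i := (Finset.mem_filter.1 hi).2
    have hex' : ∃ k, 1 < n k * L i := by
      obtain ⟨k, hk⟩ := pow_unbounded_of_one_lt (1 / L i) (one_lt_two (α := ℝ))
      refine ⟨k, ?_⟩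
      have h1 := h.pow_le k
      rw [div_lt_iff₀ hLi] at hk
      nlinarith
    have h0 : Nat.find hex' ≠ 0 := by
      intro hc
      have := Nat.find_spec hex'
      rw [hc, h.zero, Nat.cast_one, one_mul] at this
      linarith [hL1 i hi]
    obtain ⟨k, hk⟩ := Nat.exists_eq_succ_of_ne_zero h0
    refine ⟨k, ?_, ?_⟩
    · have := Nat.find_min hex' (m := k) (by omega)
      exact not_lt.1 this
    · have := Nat.find_spec hex'
      rw [hk] at this
      exact this.le
  choose! κ hκ1 hκ2 using hex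
  obtain ⟨K, hK⟩ : ∃ K, ∀ i ∈ S, κ i < K := by
    refine ⟨S.sup κ + 1, fun i hi => Nat.lt_succ_of_le (Finset.le_sup hi)⟩
  have hmaps : ∀ i ∈ S, κ i ∈ Finset.range K := fun i hi => Finset.mem_range.2 (hK i hi)
  rw [← Finset.sum_fiberwise_of_maps_to hmaps]
  have hk : ∀ k ∈ Finset.range K, ∑ i ∈ S with κ i = k, x i / l i ≤
      5 * (1 / 2) ^ k + 3 * ∑ i ∈ S with κ i = k, L i := by
    intro k _
    have hmem : ∀ i ∈ S.filter (fun i => κ i = k), i ∈ S ∧ κ i = k := fun i hi =>
      Finset.mem_filter.1 hi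
    refine h.range_le hl _ L x k (fun i _ => hL0 i) ?_ ?_ ?_ (fun i _ => hx i k)
    · intro i hi
      have := hκ1 i (hmem i hi).1
      rwa [(hmem i hi).2] at this
    · intro i hi
      have := hκ2 i (hmem i hi).1
      rwa [(hmem i hi).2] at this
    · refine le_trans ?_ hSL
      exact Finset.sum_le_sum_of_subset_of_nonneg (Finset.filter_subset _ _)
        (fun i _ _ => hL0 i)
  refine (Finset.sum_le_sum hk).trans ?_
  rw [Finset.sum_add_distrib, ← Finset.mul_sum, ← Finset.mul_sum,
    Finset.sum_fiberwise_of_maps_to hmaps]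
  have hgeom : ∑ k ∈ Finset.range K, ((1 : ℝ) / 2) ^ k ≤ 2 := by
    have h1 := (summable_geometric_of_lt_one (r := (1 / 2 : ℝ)) (by norm_num)
      (by norm_num)).sum_le_tsum (Finset.range K) (fun i _ => by positivity)
    rw [tsum_geometric_of_lt_one (by norm_num) (by norm_num)] at h1
    norm_num at h1 ⊢
    exact h1
  linarith

end construction

/-- The continuous function of bounded Lambda-variation that is not continuous in
Lambda-variation. -/
noncomputable def ex (l : ℕ → ℝ) (n : ℕ → ℕ) (a b : ℝ) : Icc a b → ℝ :=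
  fun x => bigF l n (((x : ℝ) - a) / (b - a))

lemma ex_spec (hab : a < b) {l : ℕ → ℝ} (hl : IsLambda l) {n : ℕ → ℕ} (h : Freq l n) :
    Continuous (ex l n a b) ∧ BV l (ex l n a b) ∧ ¬ BVc l (ex l n a b) := by
  have hba : 0 < b - a := sub_pos.2 hab
  refine ⟨?_, ?_, ?_⟩
  · exact (h.continuous_bigF hl).comp (by fun_prop)
  · have hV : V l (ex l n a b) ≤ ENNReal.ofReal 13 := by
      refine iSup₂_le fun I hI => ?_
      rw [sigma, ENNReal.tsum_eq_iSup_nat]
      refine iSup_le fun N => ?_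
      rw [← ENNReal.ofReal_sum_of_nonneg
        (fun i _ => div_nonneg (inc_nonneg _ _) (hl.pos _).le)]
      apply ENNReal.ofReal_le_ofReal
      refine h.total_le hl N (fun i => (((I i).2 : ℝ) - (I i).1) / (b - a))
        (fun i => inc (ex l n a b) (I i)) ?_ ?_ ?_ ?_
      · intro i
        exact div_nonneg (sub_nonneg.2 (show ((I i).1 : ℝ) ≤ (I i).2 from hI.1.le i)) hba.le
      · rw [← Finset.sum_div, div_le_one hba]
        exact sum_length_le hab.le hI.1 N
      · intro i hi
        have h1 : ((I i).2 : ℝ) - (I i).1 = 0 := by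
          rcases div_eq_zero_iff.1 hi with h1 | h1
          · exact h1
          · exact absurd h1 hba.ne'
        have h2 : (I i).2 = (I i).1 := Subtype.ext (by linarith)
        simp [inc, h2]
      · intro i k
        have h1 := h.modulus hl ((((I i).1 : ℝ) - a) / (b - a)) ((((I i).2 : ℝ) - a) / (b - a)) k
        have h2 : |(((I i).2 : ℝ) - a) / (b - a) - (((I i).1 : ℝ) - a) / (b - a)| =
            (((I i).2 : ℝ) - (I i).1) / (b - a) := by
          rw [← sub_div, abs_of_nonneg]
          · congr 1; ring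
          · apply div_nonneg _ hba.le
            have : ((I i).1 : ℝ) ≤ (I i).2 := hI.1.le i
            linarith
        rw [h2] at h1
        exact h1
    exact hV.trans_lt ENNReal.ofReal_lt_top
  · rintro ⟨-, hlim⟩
    have hev := hlim.eventually_lt_const (show (0 : ℝ≥0∞) < ENNReal.ofReal (1 / 8) by simp)
    obtain ⟨m, hm⟩ := hev.exists
    -- a large frequency
    have hamp : ∃ k, amp l n k * Lam l m ≤ 1 / 2 := by
      have h1 : Tendsto (fun k => amp l n k * Lam l m) atTop (𝓝 (0 * Lam l m)) := by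
        apply Tendsto.mul_const
        have := (h.summable_amp hl 0).tendsto_atTop_zero
        simpa using this
      rw [zero_mul] at h1
      obtain ⟨k, hk⟩ := (h1.eventually_lt_const (show (0 : ℝ) < 1 / 2 by norm_num)).exists
      exact ⟨k, hk.le⟩
    obtain ⟨k, hk⟩ := hamp
    have hnk := h.nposR k
    -- the partition points
    have hpt : ∀ j : ℕ, a + (b - a) * ((min j (2 * n k) : ℕ) / (2 * n k)) ∈ Icc a b := by
      intro j
      have h1 : ((min j (2 * n k) : ℕ) : ℝ) ≤ 2 * n k := by exact_mod_cast min_le_right _ _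
      have h2 : (0 : ℝ) ≤ ((min j (2 * n k) : ℕ) : ℝ) / (2 * n k) := by positivity
      have h3 : ((min j (2 * n k) : ℕ) : ℝ) / (2 * n k) ≤ 1 := by
        rw [div_le_one (by positivity)]; exact h1
      constructor <;> nlinarith
    let pt : ℕ → Icc a b := fun j => ⟨_, hpt j⟩
    have hmono : Monotone pt := by
      intro i j hij
      have h1 : ((min i (2 * n k) : ℕ) : ℝ) ≤ (min j (2 * n k) : ℕ) := by
        exact_mod_cast min_le_min_right _ hij
      change a + (b - a) * (((min i (2 * n k) : ℕ) : ℝ) / (2 * n k)) ≤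
        a + (b - a) * (((min j (2 * n k) : ℕ) : ℝ) / (2 * n k))
      gcongr
    have hI : Nonoverlap (fun i => (pt i, pt (i + 1))) := by
      constructor
      · intro i; exact hmono (Nat.le_succ i)
      · intro i j hij
        rcases lt_or_gt_of_ne hij with h1 | h1
        · left; exact hmono h1
        · right; exact hmono h1
    have hVge := sum_le_V hab.le (hl.shift m) (ex l n a b) hI (n k)
    have hinc : ∀ i ∈ Finset.range (n k), amp l n k / 4 ≤ inc (ex l n a b) (pt i, pt (i + 1)) := by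
      intro i hi
      have hi' := Finset.mem_range.1 hi
      have h1 := h.osc hl k i
      have e1 : ((pt i : ℝ) - a) / (b - a) = (i : ℝ) / (2 * n k) := by
        change (a + (b - a) * (((min i (2 * n k) : ℕ) : ℝ) / (2 * n k)) - a) / (b - a) = _
        rw [min_eq_left (by omega)]
        field_simp
        ring
      have e2 : ((pt (i + 1) : ℝ) - a) / (b - a) = ((i : ℝ) + 1) / (2 * n k) := by
        change (a + (b - a) * (((min (i + 1) (2 * n k) : ℕ) : ℝ) / (2 * n k)) - a) / (b - a) = _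
        rw [min_eq_left (by omega)]
        push_cast
        field_simp
        ring
      simp only [inc, ex]
      rw [e1, e2]
      exact h1
    have hlow : ENNReal.ofReal (1 / 8) ≤
        ∑ i ∈ Finset.range (n k), ENNReal.ofReal (inc (ex l n a b) (pt i, pt (i + 1)) /
          l (i + m)) := by
      rw [← ENNReal.ofReal_sum_of_nonneg
        (fun i _ => div_nonneg (inc_nonneg _ _) (hl.pos _).le)]
      apply ENNReal.ofReal_le_ofReal
      have h1 : Lam l (n k) ≤ Lam l m + ∑ i ∈ Finset.range (n k), 1 / l (i + m) := by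
        have h2 : Lam l (m + n k) = Lam l m + ∑ i ∈ Finset.range (n k), 1 / l (m + i) := by
          rw [Lam, Finset.sum_range_add, Lam]
        have h3 : Lam l (n k) ≤ Lam l (m + n k) := Lam_mono hl (by omega)
        rw [h2] at h3
        simp only [add_comm _ m]
        exact h3
      have h2 := mul_le_mul_of_nonneg_left h1 (h.amp_pos hl k).le
      rw [h.amp_mul hl k] at h2
      calc (1 : ℝ) / 8 ≤ amp l n k / 4 * ∑ i ∈ Finset.range (n k), 1 / l (i + m) := by
            nlinarith
        _ = ∑ i ∈ Finset.range (n k), amp l n k / 4 / l (i + m) := by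
            rw [Finset.mul_sum]
            apply Finset.sum_congr rfl
            intro i _
            ring
        _ ≤ _ := by
            apply Finset.sum_le_sum
            intro i hi
            exact div_le_div_of_nonneg_right (hinc i hi) (hl.pos _).le
    exact absurd hm (not_lt.2 (hlow.trans hVge))

/-- For a proper Lambda-sequence with Shao-Sablin index `2` some continuous function of bounded
Lambda-variation has no Lebesgue-type decomposition. -/
theorem exists_not_decomposable (hab : a < b) {l : ℕ → ℝ} (hl : IsLambda l) (hp : Proper l)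
    (hS : shaoSablin l = 2) :
    ∃ f : Icc a b → ℝ, Continuous f ∧ BV l f ∧ ¬ Decomposable l f := by
  obtain ⟨n, h0, h1, h2, h3, h4⟩ := exists_seq hl hp hS
  obtain ⟨hc, hbv, hnc⟩ := ex_spec hab hl (n := n) ⟨h0, h1, h2, h3, h4⟩
  exact ⟨ex l n a b, hc, hbv, fun hd => hnc ((decomposable_iff hab hl hp hbv).1 hd)⟩

/-- **Main theorem.** Let `l` be a proper Lambda-sequence and `a < b`.
(1) There is no Lambda-singular function on `[a,b]`.
(2) Hence the assertion of Q1 holds (its hypothesis is never satisfied).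
(3) A function of bounded Lambda-variation has a Lebesgue-type decomposition if and only if it is
continuous in Lambda-variation.
(4) If the Shao-Sablin index is `2`, some continuous function of bounded Lambda-variation has no
such decomposition. -/
theorem result (a b : ℝ) (hab : a < b) (l : ℕ → ℝ) (hl : IsLambda l) (hp : Proper l) :
    (∀ f : Icc a b → ℝ, ¬ Singular l f) ∧
    ((shaoSablin l = 2 ∧ ∃ g : Icc a b → ℝ, Singular l g) →
      ∀ f : Icc a b → ℝ, BV l f → Decomposable l f) ∧
    (∀ f : Icc a b → ℝ, BV l f → (Decomposable l f ↔ BVc l f)) ∧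
    (shaoSablin l = 2 → ∃ f : Icc a b → ℝ, Continuous f ∧ BV l f ∧ ¬ Decomposable l f) := by
  refine ⟨not_singular hab.le hl hp, ?_, fun f hf => decomposable_iff hab hl hp hf,
    exists_not_decomposable hab hl hp⟩
  rintro ⟨-, g, hg⟩
  exact absurd hg (not_singular hab.le hl hp g)

end Pool.Agent.Results.MP_2872ab_an.NoSingular
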